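import Pool.Agent.H.MP_ca6624_gt.Defs

set_option autoImplicit false

open Matrix

namespace Pool.Agent.H.MP_ca6624_gt

section
variable {R : Type*} [CommRing R] (t : Rˣ) {N : ℕ}

/-- The column vector of the Burau generator. -/
def uV (k : Fin N) : Fin (N + 1) → R := Pi.single k.castSucc (-(t : R)) + Pi.single k.succ 1

/-- The row vector of the Burau generator. -/
def vV (k : Fin N) : Fin (N + 1) → R := Pi.single k.castSucc 1 - Pi.single k.succ 1

lemma vV_dot (k : Fin N) (x : Fin (N + 1) → R) : vV k ⬝ᵥ x = x k.castSucc - x k.succ := by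
  unfold vV
  rw [sub_dotProduct, single_dotProduct, single_dotProduct, one_mul, one_mul]

lemma dot_uV (k : Fin N) (x : Fin (N + 1) → R) :
    x ⬝ᵥ uV t k = -t * x k.castSucc + x k.succ := by
  unfold uV
  rw [dotProduct_add, dotProduct_single, dotProduct_single]
  ring

lemma cs_ne_s (k : Fin N) : k.castSucc ≠ k.succ := by
  intro h; have := congrArg Fin.val h; simp at this

lemma dot_self (k : Fin N) : vV k ⬝ᵥ uV t k = -(1 + (t : R)) := by
  rw [vV_dot]
  unfold uV
  have h := cs_ne_s k
  simp [Pi.single_apply, h, h.symm]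
  ring

lemma dot_far {k l : Fin N} (h : (k : ℕ) + 1 < l ∨ (l : ℕ) + 1 < k) : vV k ⬝ᵥ uV t l = 0 := by
  rw [vV_dot]
  unfold uV
  have h1 : k.castSucc ≠ l.castSucc := by
    intro h; have := congrArg Fin.val h; simp at this; omega
  have h2 : k.castSucc ≠ l.succ := by
    intro h; have := congrArg Fin.val h; simp at this; omega
  have h3 : k.succ ≠ l.castSucc := by
    intro h; have := congrArg Fin.val h; simp at this; omega
  have h4 : k.succ ≠ l.succ := by
    intro h; have := congrArg Fin.val h; simp at this; omega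
  simp [Pi.single_apply, h1, h2, h3, h4]

lemma dot_next {k l : Fin N} (h : (k : ℕ) + 1 = l) : vV k ⬝ᵥ uV t l = (t : R) := by
  rw [vV_dot]
  unfold uV
  have h1 : k.castSucc ≠ l.castSucc := by
    intro h; have := congrArg Fin.val h; simp at this; omega
  have h2 : k.castSucc ≠ l.succ := by
    intro h; have := congrArg Fin.val h; simp at this; omega
  have h3 : k.succ = l.castSucc := by
    ext; simp; omega
  have h4 : k.succ ≠ l.succ := by
    intro h; have := congrArg Fin.val h; simp at this; omega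
  rw [h3] at h4
  simp [Pi.single_apply, h1, h2, h3, h4]

lemma dot_prev {k l : Fin N} (h : (k : ℕ) + 1 = l) : vV l ⬝ᵥ uV t k = 1 := by
  rw [vV_dot]
  unfold uV
  have h1 : l.castSucc ≠ k.castSucc := by
    intro h; have := congrArg Fin.val h; simp at this; omega
  have h2 : l.succ ≠ k.castSucc := by
    intro h; have := congrArg Fin.val h; simp at this; omega
  have h3 : l.castSucc = k.succ := by
    ext; simp; omega
  have h4 : l.succ ≠ k.succ := by
    intro h; have := congrArg Fin.val h; simp at this; omega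
  rw [h3] at h1
  simp [Pi.single_apply, h1, h2, h3, h4]

/-- The rank one part of the Burau generator. -/
def PM (k : Fin N) : Matrix (Fin (N + 1)) (Fin (N + 1)) R := vecMulVec (uV t k) (vV k)

lemma PM_mul (k l : Fin N) :
    PM t k * PM t l = (vV k ⬝ᵥ uV t l) • vecMulVec (uV t k) (vV l) := by
  unfold PM
  rw [vecMulVec_mul_vecMulVec, vecMulVec_smul]

lemma PM_sq (k : Fin N) : PM t k * PM t k = -(1 + (t : R)) • PM t k := by
  rw [PM_mul, dot_self]
  rfl

lemma PM_far {k l : Fin N} (h : (k : ℕ) + 1 < l ∨ (l : ℕ) + 1 < k) : PM t k * PM t l = 0 := by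
  rw [PM_mul, dot_far t h, zero_smul]

lemma PM_aba {k l : Fin N} (h : (k : ℕ) + 1 = l) :
    PM t k * PM t l * PM t k = (t : R) • PM t k := by
  rw [PM_mul, dot_next t h, smul_mul_assoc]
  unfold PM
  rw [vecMulVec_mul_vecMulVec, dot_prev t h, one_smul]

lemma PM_bab {k l : Fin N} (h : (k : ℕ) + 1 = l) :
    PM t l * PM t k * PM t l = (t : R) • PM t l := by
  rw [PM_mul, dot_prev t h, one_smul]
  unfold PM
  rw [vecMulVec_mul_vecMulVec, dot_next t h, vecMulVec_smul]

/-- The Burau generator. -/
def SM (k : Fin N) : (Matrix (Fin (N + 1)) (Fin (N + 1)) R)ˣ where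
  val := 1 + PM t k
  inv := 1 + ((t⁻¹ : Rˣ) : R) • PM t k
  val_inv := by
    have h : ((t⁻¹ : Rˣ) : R) * t = 1 := t.inv_mul
    rw [mul_add, mul_one, add_mul, one_mul, mul_smul_comm, PM_sq]
    have e : 1 + PM t k + (((t⁻¹ : Rˣ) : R) • PM t k
        + ((t⁻¹ : Rˣ) : R) • -(1 + (t : R)) • PM t k)
        = 1 + (1 - ((t⁻¹ : Rˣ) : R) * t) • PM t k := by
      module
    rw [e, h, sub_self, zero_smul, add_zero]
  inv_val := by
    have h : ((t⁻¹ : Rˣ) : R) * t = 1 := t.inv_mul
    rw [mul_add, mul_one, add_mul, one_mul, smul_mul_assoc, PM_sq]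
    have e : 1 + ((t⁻¹ : Rˣ) : R) • PM t k + (PM t k
        + ((t⁻¹ : Rˣ) : R) • -(1 + (t : R)) • PM t k)
        = 1 + (1 - ((t⁻¹ : Rˣ) : R) * t) • PM t k := by
      module
    rw [e, h, sub_self, zero_smul, add_zero]

lemma SM_comm {k l : Fin N} (h : (k : ℕ) + 1 < l) : SM t k * SM t l = SM t l * SM t k := by
  apply Units.ext
  show (1 + PM t k) * (1 + PM t l) = (1 + PM t l) * (1 + PM t k)
  have h1 := PM_far t (Or.inl h)
  have h2 := PM_far t (k := l) (l := k) (Or.inr h)
  simp only [mul_add, add_mul, mul_one, one_mul, h1, h2]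
  abel

lemma SM_braid {k l : Fin N} (h : (k : ℕ) + 1 = l) :
    SM t k * SM t l * SM t k = SM t l * SM t k * SM t l := by
  apply Units.ext
  show (1 + PM t k) * (1 + PM t l) * (1 + PM t k) = (1 + PM t l) * (1 + PM t k) * (1 + PM t l)
  have h1 := PM_aba t h
  have h2 := PM_bab t h
  simp only [mul_add, add_mul, mul_one, one_mul, h1, h2, PM_sq]
  module

/-- The Burau representation. -/
def burau : Braid N →* (Matrix (Fin (N + 1)) (Fin (N + 1)) R)ˣ :=
  liftBraid (SM t) (fun _ _ h => SM_comm t h) (fun _ _ h => SM_braid t h)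

lemma burau_sig (k : Fin N) : burau t (sig k) = SM t k := liftBraid_sig _ _ _ k

lemma burau_sig_val (k : Fin N) : (burau t (sig k)).val = 1 + PM t k := by
  rw [burau_sig]; rfl

lemma burau_sig_inv_val (k : Fin N) :
    (burau t (sig k)⁻¹).val = 1 + ((t⁻¹ : Rˣ) : R) • PM t k := by
  rw [map_inv, burau_sig]; rfl

/-- The row vector fixed by the Burau matrices. -/
def wV (N : ℕ) : Fin (N + 1) → R := fun i => (t : R) ^ (i : ℕ)

lemma burau_one (β : Braid N) : (burau t β).val *ᵥ (fun _ => 1) = fun _ => 1 := by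
  induction β using braid_induction with
  | h1 => rw [map_one]; simp
  | hs k =>
    rw [burau_sig_val, add_mulVec, one_mulVec]
    unfold PM
    rw [vecMulVec_mulVec, vV_dot]
    simp
  | hinv β ih =>
    have h : (burau t β⁻¹).val *ᵥ ((burau t β).val *ᵥ (fun _ => (1 : R))) = fun _ => 1 := by
      rw [mulVec_mulVec, ← Units.val_mul, ← map_mul, inv_mul_cancel, map_one]
      simp
    rwa [ih] at h
  | hmul β γ ihβ ihγ =>
    rw [map_mul, Units.val_mul, ← mulVec_mulVec, ihγ, ihβ]

lemma wV_burau (β : Braid N) : wV t N ᵥ* (burau t β).val = wV t N := by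
  induction β using braid_induction with
  | h1 => rw [map_one]; simp
  | hs k =>
    rw [burau_sig_val, vecMul_add, vecMul_one]
    unfold PM
    rw [vecMul_vecMulVec, dot_uV]
    have : -(t : R) * wV t N k.castSucc + wV t N k.succ = 0 := by
      unfold wV
      simp only [Fin.val_castSucc, Fin.val_succ]
      ring
    rw [this]
    simp
  | hinv β ih =>
    have h : (wV t N ᵥ* (burau t β).val) ᵥ* (burau t β⁻¹).val = wV t N := by
      rw [vecMul_vecMul, ← Units.val_mul, ← map_mul, mul_inv_cancel, map_one]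
      simp
    rwa [ih] at h
  | hmul β γ ihβ ihγ =>
    rw [map_mul, Units.val_mul, ← vecMul_vecMul, ihβ, ihγ]

/-- The determinant that is invariant under conjugation. -/
noncomputable def kap (β : Braid N) : R :=
  det (1 - (burau t β).val + vecMulVec (fun _ => 1) (wV t N))

lemma kap_conj (β γ : Braid N) : kap t (γ⁻¹ * β * γ) = kap t β := by
  unfold kap
  have e : 1 - (burau t (γ⁻¹ * β * γ)).val + vecMulVec (fun _ => 1) (wV t N)
      = (burau t γ⁻¹).val * (1 - (burau t β).val + vecMulVec (fun _ => 1) (wV t N))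
        * (burau t γ).val := by
    have h1 : (burau t γ⁻¹).val * (burau t γ).val = 1 := by
      rw [← Units.val_mul, ← map_mul, inv_mul_cancel, map_one]; rfl
    rw [mul_add, add_mul, mul_sub, sub_mul, mul_one, h1, mul_vecMulVec, vecMulVec_mul,
      burau_one, wV_burau, map_mul, map_mul, Units.val_mul, Units.val_mul]
  rw [e, det_mul, det_mul, mul_right_comm, ← det_mul, ← Units.val_mul, ← map_mul,
    inv_mul_cancel, map_one]
  simp

/-- The minor of `1 - β`. -/
noncomputable def mnr (β : Braid N) : R :=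
  det ((1 - (burau t β).val).submatrix Fin.succ Fin.succ)

end

end Pool.Agent.H.MP_ca6624_gt
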