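import Mathlib

/-!
Definitions for problem MP_ca6624_gt: links as closed braids with labelled components modulo
Markov moves, finite type invariants, linking numbers.
-/

set_option autoImplicit false

namespace Pool.Agent.H.MP_ca6624_gt

/-! ### Braid groups -/

/-- Artin's relations for the braid group on `N + 1` strands. -/
def braidRels (N : ℕ) : Set (FreeGroup (Fin N)) :=
  {r | (∃ i j : Fin N, (i : ℕ) + 1 < j ∧
      r = FreeGroup.of i * FreeGroup.of j * (FreeGroup.of j * FreeGroup.of i)⁻¹) ∨
    ∃ i j : Fin N, (i : ℕ) + 1 = j ∧
      r = FreeGroup.of i * FreeGroup.of j * FreeGroup.of i *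
        (FreeGroup.of j * FreeGroup.of i * FreeGroup.of j)⁻¹}

/-- The braid group on `N + 1` strands, given by Artin's presentation. -/
abbrev Braid (N : ℕ) : Type := PresentedGroup (braidRels N)

/-- The Artin generator that crosses the strands at positions `k` and `k + 1`. -/
def sig {N : ℕ} (k : Fin N) : Braid N := PresentedGroup.of k

/-- The homomorphism from the braid group given by images of the generators that satisfy Artin's
relations. -/
def liftBraid {N : ℕ} {G : Type*} [Group G] (f : Fin N → G)
    (hc : ∀ i j : Fin N, (i : ℕ) + 1 < j → f i * f j = f j * f i)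
    (hb : ∀ i j : Fin N, (i : ℕ) + 1 = j → f i * f j * f i = f j * f i * f j) : Braid N →* G :=
  PresentedGroup.toGroup (f := f) (by
    rintro r (⟨i, j, hij, rfl⟩ | ⟨i, j, hij, rfl⟩)
    · simp only [map_mul, map_inv, FreeGroup.lift_apply_of, mul_inv_eq_one]
      exact hc i j hij
    · simp only [map_mul, map_inv, FreeGroup.lift_apply_of, mul_inv_eq_one]
      exact hb i j hij)

@[simp]
lemma liftBraid_sig {N : ℕ} {G : Type*} [Group G] (f : Fin N → G)
    (hc : ∀ i j : Fin N, (i : ℕ) + 1 < j → f i * f j = f j * f i)
    (hb : ∀ i j : Fin N, (i : ℕ) + 1 = j → f i * f j * f i = f j * f i * f j) (k : Fin N) :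
    liftBraid f hc hb (sig k) = f k :=
  PresentedGroup.toGroup.of _

lemma sig_comm {N : ℕ} (i j : Fin N) (h : (i : ℕ) + 1 < j) : sig i * sig j = sig j * sig i := by
  have h1 : (PresentedGroup.mk (braidRels N) (FreeGroup.of i * FreeGroup.of j
      * (FreeGroup.of j * FreeGroup.of i)⁻¹)) = 1 :=
    PresentedGroup.one_of_mem (Or.inl ⟨i, j, h, rfl⟩)
  rw [map_mul, map_inv, mul_inv_eq_one, map_mul, map_mul] at h1
  exact h1

lemma sig_braid {N : ℕ} (i j : Fin N) (h : (i : ℕ) + 1 = j) :
    sig i * sig j * sig i = sig j * sig i * sig j := by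
  have h1 : (PresentedGroup.mk (braidRels N) (FreeGroup.of i * FreeGroup.of j * FreeGroup.of i
      * (FreeGroup.of j * FreeGroup.of i * FreeGroup.of j)⁻¹)) = 1 :=
    PresentedGroup.one_of_mem (Or.inr ⟨i, j, h, rfl⟩)
  rw [map_mul, map_inv, mul_inv_eq_one, map_mul, map_mul, map_mul, map_mul] at h1
  exact h1

/-- The inclusion of the braid group on `N + 1` strands in that on `N + 2` strands. -/
def up {N : ℕ} : Braid N →* Braid (N + 1) :=
  liftBraid (fun k => sig k.castSucc) (fun i j h => sig_comm _ _ (by simpa using h))
    (fun i j h => sig_braid _ _ (by simpa using h))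

/-- The permutation of a braid: it maps the position of a strand at the top to its position at the
bottom. -/
def perm {N : ℕ} : Braid N →* Equiv.Perm (Fin (N + 1)) :=
  liftBraid (fun k => Equiv.swap k.castSucc k.succ)
    (fun i j h => by
      have h1 : (i : ℕ) + 1 < j := h
      apply Equiv.Perm.Disjoint.commute
      intro x
      by_cases hx : x = i.castSucc ∨ x = i.succ
      · right
        apply Equiv.swap_apply_of_ne_of_ne
        · rintro rfl
          rcases hx with hx | hx
          · have := congrArg Fin.val hx
            simp at this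
            omega
          · have := congrArg Fin.val hx
            simp at this
            omega
        · rintro rfl
          rcases hx with hx | hx
          · have := congrArg Fin.val hx
            simp at this
            omega
          · have := congrArg Fin.val hx
            simp at this
            omega
      · left
        push Not at hx
        exact Equiv.swap_apply_of_ne_of_ne hx.1 hx.2)
    (fun i j h => by
      have e : i.succ = j.castSucc := by ext; simp; omega
      have h1 : i.castSucc ≠ i.succ := by
        intro h; have := congrArg Fin.val h; simp at this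
      have h2 : i.castSucc ≠ j.succ := by
        intro h; have := congrArg Fin.val h; simp at this; omega
      have h3 : i.succ ≠ j.succ := by
        intro h; have := congrArg Fin.val h; simp at this; omega
      rw [← e]
      generalize i.castSucc = a at *
      generalize i.succ = b at *
      generalize j.succ = c at *
      have k1 := Equiv.swap_mul_swap_mul_swap (x := c) (y := b) (z := a) h3.symm h2.symm
      have k2 := Equiv.swap_mul_swap_mul_swap (x := a) (y := b) (z := c) h1 h2
      rw [Equiv.swap_comm b a, Equiv.swap_comm c b] at k1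
      rw [k1, k2, Equiv.swap_comm])

lemma perm_sig {N : ℕ} (k : Fin N) : perm (sig k) = Equiv.swap k.castSucc k.succ :=
  liftBraid_sig _ _ _ k

/-! ### Linking numbers -/

/-- It is `1` if `a` and `b` are the two different labels `i` and `j`, in one order or the other,
and `0` otherwise. -/
def chi {m : ℕ} (i j a b : Fin m) : ℤ :=
  if a ≠ b ∧ ((a = i ∧ b = j) ∨ (a = j ∧ b = i)) then 1 else 0

lemma chi_symm {m : ℕ} (i j a b : Fin m) : chi i j a b = chi i j b a := by
  unfold chi
  congr 1
  apply propext
  constructor
  · rintro ⟨h1, h2⟩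
    exact ⟨h1.symm, h2.elim (fun h => Or.inr ⟨h.2, h.1⟩) (fun h => Or.inl ⟨h.2, h.1⟩)⟩
  · rintro ⟨h1, h2⟩
    exact ⟨h1.symm, h2.elim (fun h => Or.inr ⟨h.2, h.1⟩) (fun h => Or.inl ⟨h.2, h.1⟩)⟩

/-- The effect of a positive crossing at the positions `k`, `k + 1` on a counter and on the labels
of the positions: the counter of crossings between strands labelled `i` and `j` increases by one if
the two crossing strands have these labels, and the two labels are exchanged. Its inverse is the
effect of a negative crossing. -/
def crossStep {m N : ℕ} (i j : Fin m) (k : Fin N) : Equiv.Perm (ℤ × (Fin (N + 1) → Fin m)) where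
  toFun p := (p.1 + chi i j (p.2 k.castSucc) (p.2 k.succ), p.2 ∘ Equiv.swap k.castSucc k.succ)
  invFun p := (p.1 - chi i j (p.2 k.castSucc) (p.2 k.succ), p.2 ∘ Equiv.swap k.castSucc k.succ)
  left_inv p := by
    apply Prod.ext
    · simp only [Function.comp_apply, Equiv.swap_apply_left, Equiv.swap_apply_right]
      rw [chi_symm i j (p.2 k.succ)]
      ring
    · funext x
      simp
  right_inv p := by
    apply Prod.ext
    · simp only [Function.comp_apply, Equiv.swap_apply_left, Equiv.swap_apply_right]
      rw [chi_symm i j (p.2 k.succ)]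
      ring
    · funext x
      simp

lemma crossStep_apply {m N : ℕ} (i j : Fin m) (k : Fin N) (z : ℤ) (c : Fin (N + 1) → Fin m) :
    crossStep i j k (z, c)
      = (z + chi i j (c k.castSucc) (c k.succ), c ∘ Equiv.swap k.castSucc k.succ) := rfl

lemma crossStep_comm {m N : ℕ} (i j : Fin m) (k l : Fin N) (h : (k : ℕ) + 1 < l) :
    crossStep i j k * crossStep i j l = crossStep i j l * crossStep i j k := by
  have h1 : k.castSucc ≠ l.castSucc := by
    intro h; have := congrArg Fin.val h; simp at this; omega
  have h2 : k.castSucc ≠ l.succ := by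
    intro h; have := congrArg Fin.val h; simp at this; omega
  have h3 : k.succ ≠ l.castSucc := by
    intro h; have := congrArg Fin.val h; simp at this; omega
  have h4 : k.succ ≠ l.succ := by
    intro h; have := congrArg Fin.val h; simp at this; omega
  have hp : Equiv.swap k.castSucc k.succ * Equiv.swap l.castSucc l.succ
      = Equiv.swap l.castSucc l.succ * Equiv.swap k.castSucc k.succ := by
    have := congrArg perm (sig_comm k l h)
    rwa [map_mul, map_mul, perm_sig, perm_sig] at this
  apply Equiv.ext
  rintro ⟨z, c⟩
  simp only [Equiv.Perm.mul_apply, crossStep_apply, Function.comp_apply]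
  rw [Equiv.swap_apply_of_ne_of_ne h1 h2, Equiv.swap_apply_of_ne_of_ne h3 h4,
    Equiv.swap_apply_of_ne_of_ne h1.symm h3.symm, Equiv.swap_apply_of_ne_of_ne h2.symm h4.symm]
  apply Prod.ext
  · ring
  · funext x
    show c (_) = c (_)
    have := congrArg (fun p : Equiv.Perm (Fin (N + 1)) => p x) hp
    simp only [Equiv.Perm.mul_apply] at this
    rw [this]

lemma crossStep_braid {m N : ℕ} (i j : Fin m) (k l : Fin N) (h : (k : ℕ) + 1 = l) :
    crossStep i j k * crossStep i j l * crossStep i j k
      = crossStep i j l * crossStep i j k * crossStep i j l := by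
  have e : k.succ = l.castSucc := by ext; simp; omega
  have h1 : k.castSucc ≠ k.succ := by
    intro h; have := congrArg Fin.val h; simp at this
  have h2 : k.castSucc ≠ l.succ := by
    intro h; have := congrArg Fin.val h; simp at this; omega
  have h3 : k.succ ≠ l.succ := by
    intro h; have := congrArg Fin.val h; simp at this; omega
  have hp : Equiv.swap k.castSucc k.succ * Equiv.swap l.castSucc l.succ
        * Equiv.swap k.castSucc k.succ
      = Equiv.swap l.castSucc l.succ * Equiv.swap k.castSucc k.succ
        * Equiv.swap l.castSucc l.succ := by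
    have := congrArg perm (sig_braid k l h)
    rwa [map_mul, map_mul, map_mul, map_mul, perm_sig, perm_sig] at this
  apply Equiv.ext
  rintro ⟨z, c⟩
  simp only [Equiv.Perm.mul_apply, crossStep_apply, Function.comp_apply]
  apply Prod.ext
  · simp only [← e, Equiv.swap_apply_left, Equiv.swap_apply_right,
      Equiv.swap_apply_of_ne_of_ne h1 h2, Equiv.swap_apply_of_ne_of_ne h2.symm h3.symm]
    ring
  · funext x
    have := congrArg (fun p : Equiv.Perm (Fin (N + 1)) => p x) hp
    simp only [Equiv.Perm.mul_apply] at this
    simp only [Function.comp_apply, this]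

/-- The action of braids, read from the bottom to the top, on a counter and on the labels of the
positions (a right action, whence the opposite group). -/
def crossAct {m N : ℕ} (i j : Fin m) :
    Braid N →* (Equiv.Perm (ℤ × (Fin (N + 1) → Fin m)))ᵐᵒᵖ :=
  liftBraid (fun k => MulOpposite.op (crossStep i j k))
    (fun k l h => by rw [← MulOpposite.op_mul, ← MulOpposite.op_mul, crossStep_comm i j k l h])
    (fun k l h => by
      rw [← MulOpposite.op_mul, ← MulOpposite.op_mul, ← MulOpposite.op_mul, ← MulOpposite.op_mul,
        ← mul_assoc, ← mul_assoc, crossStep_braid i j k l h])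

/-- The sum of the signs of the crossings between strands labelled `i` and strands labelled `j` in
the braid `β` with labels `c` of the positions at the bottom. -/
def crossSum {m N : ℕ} (i j : Fin m) (β : Braid N) (c : Fin (N + 1) → Fin m) : ℤ :=
  ((crossAct i j β).unop (0, c)).1

lemma braid_induction {N : ℕ} {P : Braid N → Prop} (h1 : P 1) (hs : ∀ k, P (sig k))
    (hinv : ∀ β, P β → P β⁻¹) (hmul : ∀ β γ, P β → P γ → P (β * γ)) (β : Braid N) : P β := by
  induction β using PresentedGroup.induction_on with
  | H x =>
    induction x using FreeGroup.induction_on with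
    | C1 => rw [map_one]; exact h1
    | of k => exact hs k
    | inv_of k h => rw [map_inv]; exact hinv _ h
    | mul x y hx hy => rw [map_mul]; exact hmul _ _ hx hy

lemma crossAct_sig {m N : ℕ} (i j : Fin m) (k : Fin N) :
    crossAct i j (sig k) = MulOpposite.op (crossStep i j k) := liftBraid_sig _ _ _ k

lemma crossAct_apply {m N : ℕ} (i j : Fin m) (β : Braid N) :
    ∀ (z : ℤ) (c : Fin (N + 1) → Fin m),
      (crossAct i j β).unop (z, c) = (z + crossSum i j β c, c ∘ perm β) := by
  induction β using braid_induction with
  | h1 =>
    intro z c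
    unfold crossSum
    rw [map_one, map_one]
    simp
  | hs k =>
    intro z c
    unfold crossSum
    rw [crossAct_sig, perm_sig]
    show crossStep i j k (z, c) = _
    rw [MulOpposite.unop_op, crossStep_apply, crossStep_apply, zero_add]
  | hinv β ih =>
    intro z c
    have key : ∀ z c, (crossAct i j β⁻¹).unop (z, c)
        = (z - crossSum i j β (c ∘ perm β⁻¹), c ∘ perm β⁻¹) := by
      intro z c
      rw [map_inv, MulOpposite.unop_inv, Equiv.Perm.inv_eq_iff_eq, ih]
      apply Prod.ext
      · show z = z - crossSum i j β (c ∘ perm β⁻¹) + crossSum i j β (c ∘ perm β⁻¹)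
        ring
      · show c = (c ∘ perm β⁻¹) ∘ perm β
        funext x
        simp
    rw [key]
    unfold crossSum
    rw [key]
    show _ = (z + (0 - _), _)
    rw [zero_sub, sub_eq_add_neg]
    rfl
  | hmul β γ ihβ ihγ =>
    intro z c
    have key : ∀ z c, (crossAct i j (β * γ)).unop (z, c)
        = (z + crossSum i j β c + crossSum i j γ (c ∘ perm β), c ∘ perm (β * γ)) := by
      intro z c
      rw [map_mul, MulOpposite.unop_mul, Equiv.Perm.mul_apply, ihβ, ihγ]
      apply Prod.ext
      · rfl
      · funext x
        simp
    rw [key]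
    have e : crossSum i j (β * γ) c = crossSum i j β c + crossSum i j γ (c ∘ perm β) := by
      conv_lhs => unfold crossSum
      rw [key, zero_add]
    rw [e, add_assoc]

lemma crossSum_one {m N : ℕ} (i j : Fin m) (c : Fin (N + 1) → Fin m) :
    crossSum i j (1 : Braid N) c = 0 := by
  unfold crossSum
  rw [map_one]
  rfl

lemma crossSum_sig {m N : ℕ} (i j : Fin m) (k : Fin N) (c : Fin (N + 1) → Fin m) :
    crossSum i j (sig k) c = chi i j (c k.castSucc) (c k.succ) := by
  unfold crossSum
  rw [crossAct_sig]
  show (crossStep i j k (0, c)).1 = _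
  rw [crossStep_apply, zero_add]

lemma crossSum_mul {m N : ℕ} (i j : Fin m) (β γ : Braid N) (c : Fin (N + 1) → Fin m) :
    crossSum i j (β * γ) c = crossSum i j β c + crossSum i j γ (c ∘ perm β) := by
  conv_lhs => unfold crossSum
  rw [map_mul, MulOpposite.unop_mul, Equiv.Perm.mul_apply, crossAct_apply, crossAct_apply]
  show 0 + crossSum i j β c + crossSum i j γ (c ∘ perm β) = _
  ring

lemma crossSum_inv {m N : ℕ} (i j : Fin m) (β : Braid N) (c : Fin (N + 1) → Fin m) :
    crossSum i j β⁻¹ c = -crossSum i j β (c ∘ perm β⁻¹) := by
  have h := crossSum_mul i j β⁻¹ β c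
  rw [inv_mul_cancel, crossSum_one] at h
  linarith

lemma up_sig {N : ℕ} (k : Fin N) : up (sig k) = sig k.castSucc := liftBraid_sig _ _ _ k

lemma perm_up {N : ℕ} (β : Braid N) :
    (∀ a : Fin (N + 1), perm (up β) a.castSucc = (perm β a).castSucc) ∧
      perm (up β) (Fin.last (N + 1)) = Fin.last (N + 1) := by
  induction β using braid_induction with
  | h1 =>
    rw [map_one, map_one, map_one]
    exact ⟨fun _ => rfl, rfl⟩
  | hs k =>
    rw [up_sig, perm_sig, perm_sig]
    constructor
    · intro a
      have h1 : (k.castSucc.succ : Fin (N + 2)) = k.succ.castSucc := rfl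
      rw [h1, ← Function.Injective.map_swap (Fin.castSucc_injective _)]
    · apply Equiv.swap_apply_of_ne_of_ne
      · exact (Fin.castSucc_lt_last _).ne'
      · intro h
        have := congrArg Fin.val h
        simp at this
        omega
  | hinv β ih =>
    rw [map_inv, map_inv, map_inv]
    constructor
    · intro a
      rw [Equiv.Perm.inv_eq_iff_eq, ih.1]
      simp
    · rw [Equiv.Perm.inv_eq_iff_eq]
      exact ih.2.symm
  | hmul β γ ihβ ihγ =>
    rw [map_mul, map_mul, map_mul]
    constructor
    · intro a
      rw [Equiv.Perm.mul_apply, ihγ.1, ihβ.1, Equiv.Perm.mul_apply]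
    · rw [Equiv.Perm.mul_apply, ihγ.2, ihβ.2]

lemma crossSum_up {m N : ℕ} (i j : Fin m) (β : Braid N) : ∀ c : Fin (N + 2) → Fin m,
    crossSum i j (up β) c = crossSum i j β (fun a => c a.castSucc) := by
  induction β using braid_induction with
  | h1 =>
    intro c
    rw [map_one, crossSum_one, crossSum_one]
  | hs k =>
    intro c
    rw [up_sig, crossSum_sig, crossSum_sig]
    rfl
  | hinv β ih =>
    intro c
    rw [map_inv, crossSum_inv, crossSum_inv, ih]
    congr 2
    funext a
    show c (perm (up β)⁻¹ a.castSucc) = c ((perm β⁻¹ a).castSucc)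
    rw [← map_inv up, (perm_up β⁻¹).1]
  | hmul β γ ihβ ihγ =>
    intro c
    rw [map_mul, crossSum_mul, crossSum_mul, ihβ, ihγ]
    congr 2
    funext a
    show c (perm (up β) a.castSucc) = c ((perm β a).castSucc)
    rw [(perm_up β).1]

lemma chi_self {m : ℕ} (i j a : Fin m) : chi i j a a = 0 := by simp [chi]

/-! ### Links -/

/-- `c` numbers the components of the closure of the braid `β` by `Fin m`, in terms of the
positions of the strands at the bottom. -/
structure IsLabelling {m N : ℕ} (β : Braid N) (c : Fin (N + 1) → Fin m) : Prop where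
  closed : ∀ a, c (perm β a) = c a
  connected : ∀ a b, c a = c b → (perm β).SameCycle a b
  surjective : Function.Surjective c

/-- A closed braid with `m` numbered components. -/
structure ClosedBraid (m : ℕ) where
  /-- one less than the number of strands -/
  N : ℕ
  /-- the braid -/
  β : Braid N
  /-- the numbering of the components -/
  c : Fin (N + 1) → Fin m
  isLabelling : IsLabelling β c

/-- The Markov moves: conjugation, positive and negative stabilisation. -/
inductive MarkovMove {m : ℕ} : ClosedBraid m → ClosedBraid m → Prop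
  | conj (N : ℕ) (β γ : Braid N) (c : Fin (N + 1) → Fin m) (h : IsLabelling β c)
      (h' : IsLabelling (γ⁻¹ * β * γ) (c ∘ perm γ)) :
      MarkovMove ⟨N, β, c, h⟩ ⟨N, γ⁻¹ * β * γ, c ∘ perm γ, h'⟩
  | stabPos (N : ℕ) (β : Braid N) (c : Fin (N + 1) → Fin m) (h : IsLabelling β c)
      (h' : IsLabelling (up β * sig (Fin.last N)) (Fin.snoc c (c (Fin.last N)))) :
      MarkovMove ⟨N, β, c, h⟩ ⟨N + 1, up β * sig (Fin.last N), Fin.snoc c (c (Fin.last N)), h'⟩
  | stabNeg (N : ℕ) (β : Braid N) (c : Fin (N + 1) → Fin m) (h : IsLabelling β c)
      (h' : IsLabelling (up β * (sig (Fin.last N))⁻¹) (Fin.snoc c (c (Fin.last N)))) :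
      MarkovMove ⟨N, β, c, h⟩
        ⟨N + 1, up β * (sig (Fin.last N))⁻¹, Fin.snoc c (c (Fin.last N)), h'⟩

/-- The set of isotopy classes of oriented links with `m` numbered components in the three-sphere,
by the theorems of Alexander and Markov: closed braids with numbered components modulo Markov
moves. -/
def Link (m : ℕ) : Type := Quot (MarkovMove (m := m))

lemma crossSum_conj {m N : ℕ} (i j : Fin m) (β γ : Braid N) (c : Fin (N + 1) → Fin m)
    (h : ∀ a, c (perm β a) = c a) :
    crossSum i j (γ⁻¹ * β * γ) (c ∘ perm γ) = crossSum i j β c := by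
  have h1 : (c ∘ perm γ) ∘ perm γ⁻¹ = c := by
    funext x
    simp
  have h2 : (c ∘ perm γ) ∘ perm (γ⁻¹ * β) = c := by
    funext x
    simp [h]
  rw [crossSum_mul, crossSum_mul, crossSum_inv, h1, h2]
  ring

lemma crossSum_stab {m N : ℕ} (i j : Fin m) (β : Braid N) (c : Fin (N + 1) → Fin m)
    (h : ∀ a, c (perm β a) = c a) (β' : Braid (N + 1))
    (hβ' : β' = up β * sig (Fin.last N) ∨ β' = up β * (sig (Fin.last N))⁻¹) :
    crossSum i j β' (Fin.snoc c (c (Fin.last N))) = crossSum i j β c := by
  set c' : Fin (N + 2) → Fin m := Fin.snoc c (c (Fin.last N)) with hc'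
  have h1 : ∀ a : Fin (N + 1), c' a.castSucc = c a := fun a => by simp [hc']
  have h2 : c' (Fin.last (N + 1)) = c (Fin.last N) := by simp [hc']
  have h3 : crossSum i j (up β) c' = crossSum i j β c := by
    rw [crossSum_up]
    congr 1
    funext a
    exact h1 a
  have h4 : ∀ a, (c' ∘ perm (up β)) a = c' a := by
    intro a
    refine Fin.lastCases ?_ (fun a => ?_) a
    · rw [Function.comp_apply, (perm_up β).2]
    · rw [Function.comp_apply, (perm_up β).1, h1, h1, h]
  have h4' : c' ∘ perm (up β) = c' := funext h4
  have h5 : crossSum i j (sig (Fin.last N)) c' = 0 := by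
    rw [crossSum_sig, h1, Fin.succ_last, h2, chi_self]
  have h6 : c' ∘ perm (sig (Fin.last N)) = c' := by
    rw [perm_sig, Fin.succ_last]
    funext a
    rw [Function.comp_apply]
    by_cases ha : a = (Fin.last N).castSucc
    · rw [ha, Equiv.swap_apply_left, h2, h1]
    · by_cases hb : a = Fin.last (N + 1)
      · rw [hb, Equiv.swap_apply_right, h2, h1]
      · rw [Equiv.swap_apply_of_ne_of_ne ha hb]
  have h7 : c' ∘ perm (sig (Fin.last N))⁻¹ = c' := by
    conv_lhs => rw [← h6]
    funext a
    simp
  rcases hβ' with rfl | rfl
  · rw [crossSum_mul, h3, h4', h5, add_zero]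
  · rw [crossSum_mul, h3, h4', crossSum_inv, h7, h5, neg_zero, add_zero]

/-- The linking number of the components `i ≠ j`: half the sum of the signs of the crossings
between them. -/
noncomputable def lk {m : ℕ} (i j : Fin m) : Link m → ℂ :=
  Quot.lift (fun L => (crossSum i j L.β L.c : ℂ) / 2) (by
    rintro _ _ (⟨N, β, γ, c, h, h'⟩ | ⟨N, β, c, h, h'⟩ | ⟨N, β, c, h, h'⟩)
    · simp only
      rw [crossSum_conj i j β γ c h.closed]
    · simp only
      rw [crossSum_stab i j β c h.closed _ (Or.inl rfl)]
    · simp only
      rw [crossSum_stab i j β c h.closed _ (Or.inr rfl)])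

/-- A link is algebraically split if all its linking numbers vanish. -/
def IsAlgSplit {m : ℕ} (L : Link m) : Prop := ∀ i j, i < j → lk i j L = 0

/-! ### Finite type invariants -/

/-- The value of a link invariant on the closure of the braid `β` with labels `c`, and `0` if `c`
does not number the components of the closure. -/
noncomputable def onClosure {m N : ℕ} (v : Link m → ℂ) (c : Fin (N + 1) → Fin m) (β : Braid N) :
    ℂ :=
  open Classical in if h : IsLabelling β c then v (Quot.mk _ ⟨N, β, c, h⟩) else 0

/-- The extension of a function on braids to singular braids by the Vassiliev skein relation. The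
singular braid is `g τ_{k₁} h₁ τ_{k₂} h₂ ⋯`, where `τ_k` is a double point at the positions `k` and
`k + 1`, and `[(k₁, h₁), (k₂, h₂), …]` is the list. -/
noncomputable def onSingular {N : ℕ} (F : Braid N → ℂ) : Braid N → List (Fin N × Braid N) → ℂ
  | g, [] => F g
  | g, (k, h) :: l => onSingular F (g * sig k * h) l - onSingular F (g * (sig k)⁻¹ * h) l

/-- `v` is a finite type invariant of degree at most `d`: its extension vanishes on all singular
links with more than `d` double points (these are closures of singular braids). -/
def HasDegreeAtMost {m : ℕ} (d : ℕ) (v : Link m → ℂ) : Prop :=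
  ∀ (N : ℕ) (c : Fin (N + 1) → Fin m) (g : Braid N) (l : List (Fin N × Braid N)),
    d < l.length → onSingular (onClosure v c) g l = 0

/-- `v` is a finite type invariant, that is, it belongs to the algebra `V`. -/
def IsFiniteType {m : ℕ} (v : Link m → ℂ) : Prop := ∃ d, HasDegreeAtMost d v

end Pool.Agent.H.MP_ca6624_gt
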