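import Pool.Agent.H.MP_ca6624_gt.Inv

set_option autoImplicit false

namespace Pool.Agent.H.MP_ca6624_gt

lemma isLabelling_conj {m N : ℕ} {β : Braid N} {c : Fin (N + 1) → Fin m}
    (h : IsLabelling β c) (γ : Braid N) : IsLabelling (γ⁻¹ * β * γ) (c ∘ perm γ) where
  closed := by
    intro a
    have h1 : perm γ (perm (γ⁻¹ * β * γ) a) = perm β (perm γ a) := by simp
    rw [Function.comp_apply, Function.comp_apply, h1]
    exact h.closed _
  connected := by
    intro a b hab
    have h1 := (h.connected (perm γ a) (perm γ b) hab).conj (g := (perm γ)⁻¹)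
    simpa using h1
  surjective := h.surjective.comp (perm γ).surjective

lemma onClosure_conj {m N : ℕ} (w : Link m → ℂ) {β : Braid N} {c : Fin (N + 1) → Fin m}
    (h : IsLabelling β c) (γ : Braid N) :
    onClosure w (c ∘ perm γ) (γ⁻¹ * β * γ) = onClosure w c β := by
  have h' := isLabelling_conj h γ
  rw [onClosure_of _ _ _ h, onClosure_of _ _ _ h']
  congr 1
  exact (Quot.sound (MarkovMove.conj N β γ c h h')).symm

lemma isLabelling_stab {m N : ℕ} {β : Braid N} {c : Fin (N + 1) → Fin m}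
    (h : IsLabelling β c) (β' : Braid (N + 1))
    (hβ' : perm β' = perm (up β) * Equiv.swap (Fin.last N).castSucc (Fin.last (N + 1))) :
    IsLabelling β' (Fin.snoc c (c (Fin.last N)) : Fin (N + 2) → Fin m) := by
  set c' : Fin (N + 2) → Fin m := Fin.snoc c (c (Fin.last N)) with hc'
  have h1 : ∀ a : Fin (N + 1), c' a.castSucc = c a := fun a => by simp [hc']
  have h2 : c' (Fin.last (N + 1)) = c (Fin.last N) := by simp [hc']
  have p1 : ∀ a : Fin (N + 1), a ≠ Fin.last N → perm β' a.castSucc = (perm β a).castSucc := by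
    intro a ha
    rw [hβ', Equiv.Perm.mul_apply, Equiv.swap_apply_of_ne_of_ne, (perm_up β).1]
    · intro h
      exact ha (Fin.castSucc_injective _ h)
    · exact (Fin.castSucc_lt_last a).ne
  have p2 : perm β' (Fin.last N).castSucc = Fin.last (N + 1) := by
    rw [hβ', Equiv.Perm.mul_apply, Equiv.swap_apply_left, (perm_up β).2]
  have p3 : perm β' (Fin.last (N + 1)) = (perm β (Fin.last N)).castSucc := by
    rw [hβ', Equiv.Perm.mul_apply, Equiv.swap_apply_right, (perm_up β).1]
  have q1 : ∀ a : Fin (N + 1), (perm β').SameCycle a.castSucc (perm β a).castSucc := by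
    intro a
    by_cases ha : a = Fin.last N
    · rw [ha, ← p3, ← p2, Equiv.Perm.sameCycle_apply_right, Equiv.Perm.sameCycle_apply_right]
    · rw [← p1 a ha, Equiv.Perm.sameCycle_apply_right]
  have q2 : ∀ (n : ℕ) (a : Fin (N + 1)),
      (perm β').SameCycle a.castSucc ((perm β ^ n) a).castSucc := by
    intro n
    induction n with
    | zero => intro a; exact Equiv.Perm.SameCycle.refl _ _
    | succ n ih =>
      intro a
      rw [pow_succ, Equiv.Perm.mul_apply]
      exact (q1 a).trans (ih _)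
  have q3 : ∀ a b : Fin (N + 1), c a = c b →
      (perm β').SameCycle a.castSucc b.castSucc := by
    intro a b hab
    obtain ⟨n, hn⟩ := (h.connected a b hab).exists_nat_pow_eq
    rw [← hn]
    exact q2 n a
  have q4 : (perm β').SameCycle (Fin.last N).castSucc (Fin.last (N + 1)) := by
    rw [← p2, Equiv.Perm.sameCycle_apply_right]
  refine ⟨?_, ?_, ?_⟩
  · intro a
    refine Fin.lastCases ?_ (fun a => ?_) a
    · rw [p3, h1, h2, h.closed]
    · by_cases ha : a = Fin.last N
      · rw [ha, p2, h1, h2]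
      · rw [p1 a ha, h1, h1, h.closed]
  · intro a b
    refine Fin.lastCases ?_ (fun a => ?_) a
    · refine Fin.lastCases ?_ (fun b => ?_) b
      · intro _
        exact Equiv.Perm.SameCycle.refl _ _
      · intro hab
        rw [h1, h2] at hab
        exact q4.symm.trans (q3 _ _ hab)
    · refine Fin.lastCases ?_ (fun b => ?_) b
      · intro hab
        rw [h1, h2] at hab
        exact (q3 _ _ hab).trans q4
      · intro hab
        rw [h1, h1] at hab
        exact q3 _ _ hab
  · intro i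
    obtain ⟨a, ha⟩ := h.surjective i
    exact ⟨a.castSucc, by rw [h1, ha]⟩

lemma onClosure_stabNeg {m N : ℕ} (w : Link m → ℂ) {β : Braid N} {c : Fin (N + 1) → Fin m}
    (h : IsLabelling β c) :
    onClosure w (Fin.snoc c (c (Fin.last N)) : Fin (N + 2) → Fin m)
      (up β * (sig (Fin.last N))⁻¹) = onClosure w c β := by
  have h' : IsLabelling (up β * (sig (Fin.last N))⁻¹)
      (Fin.snoc c (c (Fin.last N)) : Fin (N + 2) → Fin m) := by
    apply isLabelling_stab h
    rw [map_mul, perm_sig_inv, perm_sig, Fin.succ_last]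
  rw [onClosure_of _ _ _ h, onClosure_of _ _ _ h']
  congr 1
  exact (Quot.sound (MarkovMove.stabNeg N β c h h')).symm

lemma up_up_comm {N : ℕ} (β : Braid N) :
    Commute (up (up β)) (sig (Fin.last (N + 1))) := by
  induction β using braid_induction with
  | h1 => rw [map_one, map_one]; exact Commute.one_left _
  | hs k =>
    rw [up_sig, up_sig]
    apply sig_comm
    simp
  | hinv β ih => rw [map_inv, map_inv]; exact ih.inv_left
  | hmul β γ ihβ ihγ => rw [map_mul, map_mul]; exact ihβ.mul_left ihγ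

lemma group_exchange {G : Type*} [Group G] (s r g Y : G) (hb : s * r * s = r * s * r)
    (hg : g * r = r * g) (hY : Y * r = r * Y) :
    (s * s * Y * s⁻¹ * (r * r) * (g * s⁻¹ * Y * (s * s) * r⁻¹))⁻¹
      * (s * s * Y * s⁻¹ * g * s⁻¹ * r⁻¹)
      * (s * s * Y * s⁻¹ * (r * r) * (g * s⁻¹ * Y * (s * s) * r⁻¹))
      = s⁻¹ * g * s⁻¹ * Y * s * s * r⁻¹ := by
  have E1 : s⁻¹ * r⁻¹ * (s * s) = r * r * s⁻¹ * r⁻¹ := by
    have h1 : s * s * (r * s) = r * s * (r * r) := by
      calc s * s * (r * s) = s * (s * r * s) := by group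
        _ = s * (r * s * r) := by rw [hb]
        _ = (s * r * s) * r := by group
        _ = (r * s * r) * r := by rw [hb]
        _ = r * s * (r * r) := by group
    calc s⁻¹ * r⁻¹ * (s * s) = (r * s)⁻¹ * (s * s * (r * s)) * (r * s)⁻¹ := by group
      _ = (r * s)⁻¹ * (r * s * (r * r)) * (r * s)⁻¹ := by rw [h1]
      _ = r * r * s⁻¹ * r⁻¹ := by group
  have E2 : r⁻¹ * s⁻¹ * (r * r) = s * s * r⁻¹ * s⁻¹ := by
    have h1 : r * r * (s * r) = s * r * (s * s) := by
      calc r * r * (s * r) = r * (r * s * r) := by group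
        _ = r * (s * r * s) := by rw [hb]
        _ = (r * s * r) * s := by group
        _ = (s * r * s) * s := by rw [hb]
        _ = s * r * (s * s) := by group
    calc r⁻¹ * s⁻¹ * (r * r) = (s * r)⁻¹ * (r * r * (s * r)) * (s * r)⁻¹ := by group
      _ = (s * r)⁻¹ * (s * r * (s * s)) * (s * r)⁻¹ := by rw [h1]
      _ = s * s * r⁻¹ * s⁻¹ := by group
  have hY' : r⁻¹ * Y = Y * r⁻¹ := by
    rw [inv_mul_eq_iff_eq_mul, ← mul_assoc, ← hY, mul_inv_cancel_right]
  have hg2 : g * (r * r) = r * r * g := by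
    rw [← mul_assoc, hg, mul_assoc, hg, mul_assoc]
  have key : g * (s⁻¹ * r⁻¹ * (s * s)) * Y * s⁻¹ * (r * r)
      = r * r * (g * s⁻¹ * Y * (s * s) * r⁻¹) * s⁻¹ := by
    calc g * (s⁻¹ * r⁻¹ * (s * s)) * Y * s⁻¹ * (r * r)
        = g * (r * r * s⁻¹ * r⁻¹) * Y * s⁻¹ * (r * r) := by rw [E1]
      _ = g * (r * r) * s⁻¹ * (r⁻¹ * Y) * s⁻¹ * (r * r) := by group
      _ = r * r * g * s⁻¹ * (Y * r⁻¹) * s⁻¹ * (r * r) := by rw [hg2, hY']
      _ = r * r * g * s⁻¹ * Y * (r⁻¹ * s⁻¹ * (r * r)) := by group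
      _ = r * r * (g * s⁻¹ * Y * (s * s) * r⁻¹) * s⁻¹ := by rw [E2]; group
  rw [mul_assoc, inv_mul_eq_iff_eq_mul]
  calc s * s * Y * s⁻¹ * g * s⁻¹ * r⁻¹
        * (s * s * Y * s⁻¹ * (r * r) * (g * s⁻¹ * Y * (s * s) * r⁻¹))
      = s * s * Y * s⁻¹ * (g * (s⁻¹ * r⁻¹ * (s * s)) * Y * s⁻¹ * (r * r))
        * (g * s⁻¹ * Y * (s * s) * r⁻¹) := by group
    _ = s * s * Y * s⁻¹ * (r * r * (g * s⁻¹ * Y * (s * s) * r⁻¹) * s⁻¹)
        * (g * s⁻¹ * Y * (s * s) * r⁻¹) := by rw [key]
    _ = _ := by group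

lemma perm_up_one {N : ℕ} (g : Braid N) (hg : perm g = 1) : perm (up g) = 1 := by
  apply Equiv.ext
  intro a
  refine Fin.lastCases ?_ (fun a => ?_) a
  · rw [(perm_up g).2]
    rfl
  · rw [(perm_up g).1, hg]
    rfl

/-- The exchange move. -/
lemma exchange {m N : ℕ} (w : Link m → ℂ) (g Y : Braid N) (hg : perm g = 1) (hY : perm Y = 1)
    (c : Fin (N + 2) → Fin m) (h : IsLabelling (1 : Braid (N + 1)) c) :
    onClosure w c (up g * sig (Fin.last N) * up Y * (sig (Fin.last N))⁻¹)
      = onClosure w c (up g * (sig (Fin.last N))⁻¹ * up Y * sig (Fin.last N)) := by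
  have hug := perm_up_one g hg
  have huY := perm_up_one Y hY
  set s : Braid (N + 1) := sig (Fin.last N) with hs
  have hp1 : perm (1 : Braid (N + 1)) = perm (up g * s * up Y * s⁻¹) := by
    simp [hug, huY]
  have hp2 : perm (1 : Braid (N + 1)) = perm (up g * s⁻¹ * up Y * s) := by
    simp [hug, huY]
  have l1 := isLabelling_congr hp1 h
  have l2 := isLabelling_congr hp2 h
  -- first side
  have a1 := onClosure_conj w l1 (up g * s⁻¹)
  have e1 : (up g * s⁻¹)⁻¹ * (up g * s * up Y * s⁻¹) * (up g * s⁻¹)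
      = s * s * up Y * s⁻¹ * up g * s⁻¹ := by group
  have ec1 : c ∘ perm (up g * s⁻¹) = c ∘ perm s := by
    rw [map_mul, hug, one_mul, hs, perm_sig_inv]
  have k1 := isLabelling_conj l1 (up g * s⁻¹)
  rw [e1, ec1] at a1 k1
  have b1 := onClosure_stabNeg w k1
  -- second side
  have a2 := onClosure_conj w l2 s
  have e2 : s⁻¹ * (up g * s⁻¹ * up Y * s) * s = s⁻¹ * up g * s⁻¹ * up Y * s * s := by group
  have k2 := isLabelling_conj l2 s
  rw [e2] at a2 k2
  have b2 := onClosure_stabNeg w k2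
  set c' : Fin (N + 3) → Fin m :=
    Fin.snoc (c ∘ perm s) ((c ∘ perm s) (Fin.last (N + 1))) with hc'
  have k1' : IsLabelling (up (s * s * up Y * s⁻¹ * up g * s⁻¹)
      * (sig (Fin.last (N + 1)))⁻¹) c' := by
    apply isLabelling_stab k1
    rw [map_mul, perm_sig_inv, perm_sig, Fin.succ_last]
  set r : Braid (N + 2) := sig (Fin.last (N + 1)) with hr
  have hus : up s = sig (Fin.last N).castSucc := up_sig _
  have hbr : up s * r * up s = r * up s * r := by
    rw [hus, hr]
    apply sig_braid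
    simp
  have hgc : up (up g) * r = r * up (up g) := up_up_comm g
  have hYc : up (up Y) * r = r * up (up Y) := up_up_comm Y
  have ge := group_exchange (up s) r (up (up g)) (up (up Y)) hbr hgc hYc
  have a3 := onClosure_conj w k1' (up s * up s * up (up Y) * (up s)⁻¹ * (r * r)
    * (up (up g) * (up s)⁻¹ * up (up Y) * (up s * up s) * r⁻¹))
  have e3 : up (s * s * up Y * s⁻¹ * up g * s⁻¹) * r⁻¹
      = up s * up s * up (up Y) * (up s)⁻¹ * up (up g) * (up s)⁻¹ * r⁻¹ := by
    simp only [map_mul, map_inv]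
  have e4 : up (s⁻¹ * up g * s⁻¹ * up Y * s * s) * r⁻¹
      = (up s)⁻¹ * up (up g) * (up s)⁻¹ * up (up Y) * up s * up s * r⁻¹ := by
    simp only [map_mul, map_inv]
  rw [e3, ge, ← e3, ← e4] at a3
  have hc'' : c' ∘ perm (up s * up s * up (up Y) * (up s)⁻¹ * (r * r)
      * (up (up g) * (up s)⁻¹ * up (up Y) * (up s * up s) * r⁻¹)) = c' := by
    have hp : perm (up s * up s * up (up Y) * (up s)⁻¹ * (r * r)
        * (up (up g) * (up s)⁻¹ * up (up Y) * (up s * up s) * r⁻¹))
        = Equiv.swap (Fin.last (N + 1)).castSucc (Fin.last (N + 2)) := by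
      have h1 := perm_up_one _ hug
      have h2 := perm_up_one _ huY
      have h3 : perm (up s)⁻¹ = perm (up s) := by rw [hus, perm_sig_inv]
      have h4 : perm (up s) * perm (up s) = 1 := by
        rw [hus, perm_sig, Equiv.swap_mul_self]
      have h5 : perm r * perm r = 1 := by
        rw [hr, perm_sig, Equiv.swap_mul_self]
      simp only [map_mul]
      rw [h1, h2, h3, h5, perm_sig_inv]
      simp only [mul_one, one_mul, h4]
      rw [← hr, hr, perm_sig, Fin.succ_last, ← mul_assoc, h4, one_mul]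
    rw [hp]
    funext a
    rw [Function.comp_apply]
    by_cases h1 : a = (Fin.last (N + 1)).castSucc
    · rw [h1, Equiv.swap_apply_left]
      simp [hc']
    · by_cases h2 : a = Fin.last (N + 2)
      · rw [h2, Equiv.swap_apply_right]
        simp [hc']
      · rw [Equiv.swap_apply_of_ne_of_ne h1 h2]
  rw [hc''] at a3
  rw [← a1, ← b1, ← a2, ← b2]
  exact a3.symm

end Pool.Agent.H.MP_ca6624_gt
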