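import Pool.Agent.H.MP_ca6624_gt.Value

set_option autoImplicit false

namespace Pool.Agent.H.MP_ca6624_gt

lemma value_of (v : Link 4 → ℂ) (w : Fin 4 → Fin 4 → Link 4 → ℂ)
    (hv : ∀ L, v L = ∑ i, ∑ j ∈ Finset.univ.filter (i < ·), lk i j L * w i j L)
    (n : ℕ) (β : Braid 3) (hp : perm β = 1)
    (hc : ∀ i j : Fin 4, crossSum i j β id = n * crossSum i j bA id + n * crossSum i j bB id) :
    onClosure v id β = n * onClosure (w 0 3) id β + n * onClosure (w 1 3) id β := by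
  have h := isLabelling_pure β hp
  rw [onClosure_of _ _ _ h, onClosure_of _ _ _ h, onClosure_of _ _ _ h]
  refine (hv _).trans ?_
  have hlk : ∀ i j : Fin 4, i < j → lk i j (Quot.mk _ ⟨3, β, id, h⟩)
      = if i = 0 ∧ j = 3 then (n : ℂ) else if i = 1 ∧ j = 3 then (n : ℂ) else 0 := by
    intro i j hij
    show (crossSum i j β id : ℂ) / 2 = _
    rw [hc, crossSum_bA i j hij, crossSum_bB i j hij]
    by_cases h1 : i = 0 ∧ j = 3
    · have h2 : ¬ (i = 1 ∧ j = 3) := by
        rintro ⟨h2, _⟩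
        rw [h1.1] at h2
        exact absurd h2 (by decide)
      rw [if_pos h1, if_neg h2, if_pos h1]
      push_cast
      ring
    · by_cases h2 : i = 1 ∧ j = 3
      · rw [if_neg h1, if_pos h2, if_neg h1, if_pos h2]
        push_cast
        ring
      · rw [if_neg h1, if_neg h2, if_neg h1, if_neg h2]
        push_cast
        ring
  have hterm : ∀ i : Fin 4, ∑ j ∈ Finset.univ.filter (i < ·),
      lk i j (Quot.mk _ ⟨3, β, id, h⟩) * w i j (Quot.mk _ ⟨3, β, id, h⟩)
      = ∑ j ∈ Finset.univ.filter (i < ·),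
        (if i = 0 ∧ j = 3 then (n : ℂ) else if i = 1 ∧ j = 3 then (n : ℂ) else 0)
          * w i j (Quot.mk _ ⟨3, β, id, h⟩) := by
    intro i
    apply Finset.sum_congr rfl
    intro j hj
    rw [hlk i j (Finset.mem_filter.1 hj).2]
  simp only [hterm]
  simp only [Finset.sum_filter, Fin.sum_univ_four]
  simp

lemma PP_eq (w : Link 4 → ℂ) (n : ℕ) : PP w n = onClosure w id (bA ^ n * bB ^ n * bG)
    - onClosure w id (bA ^ n * (bC⁻¹ * bB ^ n * bC) * bG)
    - (onClosure w id (bA ^ n * bB ^ n) - onClosure w id (bA ^ n * (bC⁻¹ * bB ^ n * bC))) := by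
  unfold PP
  have e : ee bA ^ n * (ee bB ^ n - ee bC⁻¹ * ee bB ^ n * ee bC) * (ee bG - 1)
      = ee (bA ^ n * bB ^ n * bG) - ee (bA ^ n * (bC⁻¹ * bB ^ n * bC) * bG)
        - (ee (bA ^ n * bB ^ n) - ee (bA ^ n * (bC⁻¹ * bB ^ n * bC))) := by
    simp only [map_mul, map_pow]
    generalize ee bA ^ n = a
    generalize ee bB ^ n = b
    generalize ee bC = c
    generalize ee bC⁻¹ = f
    generalize ee bG = g
    simp only [mul_sub, sub_mul, mul_one]
  rw [e, map_sub, map_sub, map_sub, lin_ee, lin_ee, lin_ee, lin_ee]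

lemma PP_lk (v : Link 4 → ℂ) (w : Fin 4 → Fin 4 → Link 4 → ℂ)
    (hv : ∀ L, v L = ∑ i, ∑ j ∈ Finset.univ.filter (i < ·), lk i j L * w i j L)
    (n : ℕ) : PP v n = n * PP (w 0 3) n + n * PP (w 1 3) n := by
  have hpA : perm (bA ^ n) = 1 := by rw [map_pow, perm_bA, one_pow]
  have hpB : perm (bB ^ n) = 1 := by rw [map_pow, perm_bB, one_pow]
  have hpC : perm bC⁻¹ = 1 := by rw [map_inv, perm_bC, inv_one]
  have hpCB : perm (bC⁻¹ * bB ^ n) = 1 := by rw [map_mul, hpC, hpB, one_mul]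
  have hpCBC : perm (bC⁻¹ * bB ^ n * bC) = 1 := by rw [map_mul, hpCB, perm_bC, one_mul]
  have hpAB : perm (bA ^ n * bB ^ n) = 1 := by rw [map_mul, hpA, hpB, one_mul]
  have hpABG : perm (bA ^ n * bB ^ n * bG) = 1 := by rw [map_mul, hpAB, perm_bG, one_mul]
  have hpAC : perm (bA ^ n * (bC⁻¹ * bB ^ n * bC)) = 1 := by rw [map_mul, hpA, hpCBC, one_mul]
  have hpACG : perm (bA ^ n * (bC⁻¹ * bB ^ n * bC) * bG) = 1 := by
    rw [map_mul, hpAC, perm_bG, one_mul]
  have c1 : ∀ i j : Fin 4, crossSum i j (bA ^ n * bB ^ n) id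
      = n * crossSum i j bA id + n * crossSum i j bB id := by
    intro i j
    rw [crossSum_pure_mul hpA, crossSum_pure_pow perm_bA, crossSum_pure_pow perm_bB]
  have c2 : ∀ i j : Fin 4, crossSum i j (bA ^ n * bB ^ n * bG) id
      = n * crossSum i j bA id + n * crossSum i j bB id := by
    intro i j
    rw [crossSum_pure_mul hpAB, c1, crossSum_bG, add_zero]
  have c3 : ∀ i j : Fin 4, crossSum i j (bA ^ n * (bC⁻¹ * bB ^ n * bC)) id
      = n * crossSum i j bA id + n * crossSum i j bB id := by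
    intro i j
    rw [crossSum_pure_mul hpA, crossSum_pure_mul hpCB, crossSum_pure_mul hpC,
      crossSum_pure_inv perm_bC, crossSum_pure_pow perm_bA, crossSum_pure_pow perm_bB]
    ring
  have c4 : ∀ i j : Fin 4, crossSum i j (bA ^ n * (bC⁻¹ * bB ^ n * bC) * bG) id
      = n * crossSum i j bA id + n * crossSum i j bB id := by
    intro i j
    rw [crossSum_pure_mul hpAC, c3, crossSum_bG, add_zero]
  rw [PP_eq, PP_eq, PP_eq, value_of v w hv n _ hpABG c2, value_of v w hv n _ hpACG c4,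
    value_of v w hv n _ hpAB c1, value_of v w hv n _ hpAC c3]
  ring

/-- The invariant is not in the ideal. -/
theorem not_mem_ideal : ¬ ∃ w : Fin 4 → Fin 4 → Link 4 → ℂ, (∀ i j, i < j → IsFiniteType (w i j)) ∧
    ∀ L, cw 4 5 L = ∑ i, ∑ j ∈ Finset.univ.filter (i < ·), lk i j L * w i j L := by
  rintro ⟨w, hw, hv⟩
  obtain ⟨d1, h1⟩ := hw 0 3 (by decide)
  obtain ⟨d2, h2⟩ := hw 1 3 (by decide)
  obtain ⟨Q1, hQ1⟩ := PP_poly (w 0 3) d1 h1
  obtain ⟨Q2, hQ2⟩ := PP_poly (w 1 3) d2 h2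
  have key : ∀ n : ℕ, (n : ℂ) ^ 2 * 64
      = n * (n ^ 2 * Q1.eval (n : ℂ)) + n * (n ^ 2 * Q2.eval (n : ℂ)) := by
    intro n
    rw [← hQ1, ← hQ2, ← PP_lk (cw 4 5) w hv n, PP_cw _ (cw_degree 4 5), lin_cw_xx]
  have hpoly : (Polynomial.C 64 : Polynomial ℂ) = Polynomial.X * (Q1 + Q2) := by
    apply Polynomial.eq_of_infinite_eval_eq
    apply Set.Infinite.mono (s := Set.range (fun n : ℕ => ((n + 1 : ℕ) : ℂ)))
    · rintro _ ⟨n, rfl⟩
      show Polynomial.eval _ _ = Polynomial.eval _ _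
      have hk := key (n + 1)
      have hn : ((n + 1 : ℕ) : ℂ) ≠ 0 := by exact_mod_cast Nat.succ_ne_zero n
      rw [Polynomial.eval_C, Polynomial.eval_mul, Polynomial.eval_X, Polynomial.eval_add]
      apply mul_left_cancel₀ (pow_ne_zero 2 hn)
      linear_combination hk
    · apply Set.infinite_range_of_injective
      intro a b hab
      simpa using hab
  have h0 := congrArg (Polynomial.eval 0) hpoly
  simp at h0

/-- The coefficient of `X ^ 5` vanishes on algebraically split links with four components. -/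
theorem vanishes (L : Link 4) (hL : IsAlgSplit L) : cw 4 5 L = 0 :=
  cw_algSplit 3 5 (by norm_num) L hL

end Pool.Agent.H.MP_ca6624_gt
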