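import Pool.Agent.H.MP_ca6624_gt.Kap

set_option autoImplicit false

open Matrix PowerSeries

namespace Pool.Agent.H.MP_ca6624_gt

/-- `q = 1 + X`. -/
noncomputable def qS : ℂ⟦X⟧ˣ where
  val := 1 + X
  inv := (1 + X)⁻¹
  val_inv := PowerSeries.mul_inv_cancel _ (by simp)
  inv_val := PowerSeries.inv_mul_cancel _ (by simp)

/-- `t = q ^ 2`. -/
noncomputable def tS : ℂ⟦X⟧ˣ := qS ^ 2

/-- The normalising character. -/
noncomputable def chiB {N : ℕ} : Braid N →* ℂ⟦X⟧ˣ :=
  liftBraid (fun _ => -qS⁻¹) (fun _ _ _ => rfl) (fun _ _ _ => rfl)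

lemma chiB_sig {N : ℕ} (k : Fin N) : chiB (sig k) = -qS⁻¹ := liftBraid_sig _ _ _ k

lemma chiB_up {N : ℕ} (β : Braid N) : chiB (up β) = chiB β := by
  have h : (chiB).comp (up (N := N)) = chiB := by
    apply PresentedGroup.ext
    intro k
    show chiB (up (sig k)) = chiB (sig k)
    rw [up_sig, chiB_sig, chiB_sig]
  exact congrArg (fun f => f β) h

/-- The Conway function of the closure of a braid. -/
noncomputable def conway {N : ℕ} (β : Braid N) : ℂ⟦X⟧ :=
  ((chiB β * (-qS) ^ N : ℂ⟦X⟧ˣ) : ℂ⟦X⟧) * mnr tS β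

lemma coeff_zero_tS : constantCoeff (tS : ℂ⟦X⟧) = 1 := by
  simp [tS, qS]

lemma isUnit_sum (N : ℕ) : IsUnit (∑ i : Fin (N + 1), (tS : ℂ⟦X⟧) ^ (i : ℕ)) := by
  rw [PowerSeries.isUnit_iff_constantCoeff, map_sum]
  simp only [map_pow, coeff_zero_tS, one_pow]
  simp only [Finset.sum_const, Finset.card_univ, Fintype.card_fin]
  rw [isUnit_iff_ne_zero]
  simp
  exact_mod_cast Nat.succ_ne_zero N

lemma conway_conj {N : ℕ} (β γ : Braid N) : conway (γ⁻¹ * β * γ) = conway β := by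
  unfold conway
  rw [mnr_conj tS (isUnit_sum N)]
  have : chiB (γ⁻¹ * β * γ) = chiB β := by
    rw [map_mul, map_mul, map_inv, mul_right_comm, inv_mul_cancel, one_mul]
  rw [this]

lemma conway_stab_pos {N : ℕ} (β : Braid N) : conway (up β * sig (Fin.last N)) = conway β := by
  unfold conway
  rw [mnr_stab_pos, map_mul, chiB_up, chiB_sig]
  congr 2
  rw [pow_succ, mul_assoc]
  congr 1
  rw [mul_comm, mul_assoc]
  simp

lemma conway_stab_neg {N : ℕ} (β : Braid N) :
    conway (up β * (sig (Fin.last N))⁻¹) = conway β := by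
  unfold conway
  rw [mnr_stab_neg, map_mul, chiB_up, map_inv, chiB_sig, ← mul_assoc, ← Units.val_mul]
  congr 2
  rw [pow_succ, mul_assoc, mul_assoc]
  congr 1
  rw [mul_comm, mul_assoc, mul_assoc]
  simp [tS, pow_two]

/-- `z = q - q⁻¹`. -/
noncomputable def zS : ℂ⟦X⟧ := (qS : ℂ⟦X⟧) - ((qS⁻¹ : ℂ⟦X⟧ˣ) : ℂ⟦X⟧)

lemma conway_skein {N : ℕ} (g h : Braid N) (k : Fin N) :
    conway (g * sig k * h) - conway (g * (sig k)⁻¹ * h) = zS * conway (g * h) := by
  obtain ⟨K, h1, h2⟩ := mnr_skein tS g h k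
  unfold conway
  rw [h1, h2]
  simp only [map_mul, map_inv, chiB_sig, Units.val_mul]
  have hq : (qS : ℂ⟦X⟧) * ((qS⁻¹ : ℂ⟦X⟧ˣ) : ℂ⟦X⟧) = 1 := qS.mul_inv
  have ht : ((tS⁻¹ : ℂ⟦X⟧ˣ) : ℂ⟦X⟧) = ((qS⁻¹ : ℂ⟦X⟧ˣ) : ℂ⟦X⟧) ^ 2 := by
    simp [tS]
  have hn : (((-qS⁻¹)⁻¹ : ℂ⟦X⟧ˣ) : ℂ⟦X⟧) = -(qS : ℂ⟦X⟧) := by
    rw [inv_neg, inv_inv]
    simp
  rw [ht, hn]
  unfold zS
  simp only [Units.val_neg]
  generalize ((qS⁻¹ : ℂ⟦X⟧ˣ) : ℂ⟦X⟧) = r at *
  generalize (qS : ℂ⟦X⟧) = q at *
  have : q * r ^ 2 = r := by rw [pow_two, ← mul_assoc, hq, one_mul]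
  generalize (chiB g : ℂ⟦X⟧) = a at *
  generalize (chiB h : ℂ⟦X⟧) = b at *
  generalize (((-qS) ^ N : ℂ⟦X⟧ˣ) : ℂ⟦X⟧) = e at *
  generalize mnr tS (g * h) = D at *
  linear_combination (a * b * e * K) * this

lemma X_dvd_zS : (X : ℂ⟦X⟧) ∣ zS := by
  rw [X_dvd_iff]
  unfold zS
  have h : constantCoeff (qS : ℂ⟦X⟧) * constantCoeff ((qS⁻¹ : ℂ⟦X⟧ˣ) : ℂ⟦X⟧) = 1 := by
    rw [← map_mul, qS.mul_inv, map_one]
  have h1 : constantCoeff (qS : ℂ⟦X⟧) = 1 := by simp [qS]
  rw [h1, one_mul] at h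
  rw [map_sub, h, h1, sub_self]

/-! ### The invariants -/

/-- The coefficient of `X ^ d` in the Conway function, as an invariant of links. -/
noncomputable def cw (m d : ℕ) : Link m → ℂ :=
  Quot.lift (fun L => coeff d (conway L.β)) (by
    rintro _ _ (⟨N, β, γ, c, h, h'⟩ | ⟨N, β, c, h, h'⟩ | ⟨N, β, c, h, h'⟩)
    · simp only
      rw [conway_conj]
    · simp only
      rw [conway_stab_pos]
    · simp only
      rw [conway_stab_neg])

lemma cw_mk (m d : ℕ) (L : ClosedBraid m) : cw m d (Quot.mk _ L) = coeff d (conway L.β) := rfl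

lemma onSingular_zero {N : ℕ} (l : List (Fin N × Braid N)) :
    ∀ g : Braid N, onSingular (fun _ => (0 : ℂ)) g l = 0 := by
  induction l with
  | nil => intro g; rfl
  | cons p l ih =>
    obtain ⟨k, h⟩ := p
    intro g
    unfold onSingular
    rw [ih, ih, sub_zero]

lemma perm_sig_inv {N : ℕ} (k : Fin N) : perm (sig k)⁻¹ = perm (sig k) := by
  rw [map_inv, perm_sig, Equiv.swap_inv]

lemma onSingular_congr {N : ℕ} (F F' : Braid N → ℂ) (π : Equiv.Perm (Fin (N + 1)))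
    (hF : ∀ β, perm β = π → F β = F' β) (l : List (Fin N × Braid N)) :
    ∀ g : Braid N, perm (g * (l.map (fun p => sig p.1 * p.2)).prod) = π →
      onSingular F g l = onSingular F' g l := by
  induction l with
  | nil =>
    intro g hg
    simp only [List.map_nil, List.prod_nil, mul_one] at hg
    exact hF g hg
  | cons p l ih =>
    obtain ⟨k, h⟩ := p
    intro g hg
    simp only [List.map_cons, List.prod_cons] at hg
    unfold onSingular
    rw [ih (g * sig k * h) (by rw [← hg]; simp only [mul_assoc]),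
      ih (g * (sig k)⁻¹ * h) (by
        rw [← hg]
        simp only [map_mul]
        rw [perm_sig_inv]
        simp only [mul_assoc])]

lemma onSingular_conway {N : ℕ} (d : ℕ) (l : List (Fin N × Braid N)) :
    ∀ (g : Braid N) (P : ℂ⟦X⟧), onSingular (fun β => coeff d (P * conway β)) g l
      = coeff d (P * zS ^ l.length * conway (g * (l.map Prod.snd).prod)) := by
  induction l with
  | nil =>
    intro g P
    simp [onSingular]
  | cons p l ih =>
    obtain ⟨k, h⟩ := p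
    intro g P
    unfold onSingular
    rw [ih, ih, ← map_sub, ← mul_sub]
    simp only [List.map_cons, List.prod_cons, List.length_cons]
    have h1 := conway_skein g (h * (l.map Prod.snd).prod) k
    simp only [← mul_assoc] at h1 ⊢
    rw [h1]
    congr 1
    ring

lemma isLabelling_congr {m N : ℕ} {β β' : Braid N} (h : perm β = perm β')
    {c : Fin (N + 1) → Fin m} (hβ : IsLabelling β c) : IsLabelling β' c where
  closed := by rw [← h]; exact hβ.closed
  connected := by rw [← h]; exact hβ.connected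
  surjective := hβ.surjective

lemma onClosure_of {m N : ℕ} (v : Link m → ℂ) (c : Fin (N + 1) → Fin m) (β : Braid N)
    (h : IsLabelling β c) : onClosure v c β = v (Quot.mk _ ⟨N, β, c, h⟩) := by
  unfold onClosure
  rw [dif_pos h]

lemma onClosure_of_not {m N : ℕ} (v : Link m → ℂ) (c : Fin (N + 1) → Fin m) (β : Braid N)
    (h : ¬ IsLabelling β c) : onClosure v c β = 0 := by
  unfold onClosure
  rw [dif_neg h]

lemma coeff_eq_zero_of_dvd {d n : ℕ} (hd : d < n) (P : ℂ⟦X⟧) (h : X ^ n ∣ P) : coeff d P = 0 :=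
  X_pow_dvd_iff.1 h d hd

lemma cw_degree (m d : ℕ) : HasDegreeAtMost d (cw m d) := by
  intro N c g l hl
  by_cases h : IsLabelling (g * (l.map (fun p => sig p.1 * p.2)).prod) c
  · rw [onSingular_congr _ (fun β => coeff d (1 * conway β)) _ (fun β hβ => ?_) l g rfl]
    · rw [onSingular_conway]
      apply coeff_eq_zero_of_dvd hl
      rw [one_mul]
      exact Dvd.dvd.mul_right (pow_dvd_pow_of_dvd X_dvd_zS _) _
    · rw [onClosure_of _ _ _ (isLabelling_congr hβ.symm h), cw_mk, one_mul]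
  · rw [onSingular_congr _ (fun _ => 0) _ (fun β hβ => ?_) l g rfl]
    · exact onSingular_zero l g
    · exact onClosure_of_not _ _ _ (fun h' => h (isLabelling_congr hβ h'))

end Pool.Agent.H.MP_ca6624_gt
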