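import Pool.Agent.H.MP_ca6624_gt.Burau

set_option autoImplicit false

open Matrix

namespace Pool.Agent.H.MP_ca6624_gt

section
variable {R : Type*} [CommRing R]

lemma det_ker_add {n : ℕ} (K : Matrix (Fin (n + 1)) (Fin (n + 1)) R) (w : Fin (n + 1) → R)
    (hw : w 0 = 1) (h1 : ∀ i, ∑ j, K i j = 0) (h2 : ∀ j, ∑ i, w i * K i j = 0) :
    det (K + vecMulVec (fun _ => 1) w) = (∑ i, w i) ^ 2 * det (K.submatrix Fin.succ Fin.succ) := by
  set s := ∑ i, w i with hs
  set M := K + vecMulVec (fun _ => 1) w with hM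
  have hMe : ∀ i j, M i j = K i j + w j := by
    intro i j
    simp [hM, vecMulVec_apply]
  -- first step: row combination
  have e1 : det (M.updateRow 0 (∑ k, w k • M k)) = det M := by
    rw [det_updateRow_sum, hw, one_smul]
  have e1r : (∑ k, w k • M k) = fun j => s * w j := by
    funext j
    rw [Finset.sum_apply]
    simp only [Pi.smul_apply, smul_eq_mul, hMe, mul_add, Finset.sum_add_distrib, h2, zero_add]
    rw [hs, Finset.sum_mul]
  rw [e1r] at e1
  set M1 := M.updateRow 0 (fun j => s * w j) with hM1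
  have e2 : det (M1.updateCol 0 (fun k => ∑ i, (1 : R) • M1 k i)) = det M1 := by
    rw [det_updateCol_sum M1 0 (fun _ => (1 : R)), one_smul]
  have e2c : (fun k => ∑ i, (1 : R) • M1 k i) = Fin.cons (s * s) (fun _ => s) := by
    funext k
    refine Fin.cases ?_ (fun k => ?_) k
    · simp [hM1, ← Finset.mul_sum, hs]
    · simp [hM1, hMe, Finset.sum_add_distrib, h1, hs]
  rw [e2c] at e2
  set M2 := M1.updateCol 0 (Fin.cons (s * s) (fun _ => s) : Fin (n + 1) → R) with hM2
  have e3 : M2 = (M2.updateRow 0 (s • (Fin.cons s (fun j => w j.succ) : Fin (n + 1) → R))) := by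
    funext i j
    refine Fin.cases ?_ (fun i => ?_) i
    · refine Fin.cases ?_ (fun j => ?_) j
      · simp [hM2]
      · simp [hM2, hM1]
    · simp
  set r : Fin (n + 1) → R := Fin.cons s (fun j => w j.succ) with hr
  have e4 : det M2 = s * det (M2.updateRow 0 r) := by
    conv_lhs => rw [e3]
    rw [det_updateRow_smul]
  set B : Matrix (Fin (n + 1)) (Fin (n + 1)) R :=
    fun i j => Fin.cases (r j) (fun i' => Fin.cases 0 (fun j' => K i'.succ j'.succ) j) i with hB
  have e5 : det (M2.updateRow 0 r) = det B := by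
    apply det_eq_of_forall_row_eq_smul_add_const (fun i => if i = 0 then 0 else 1) 0 (by simp)
    intro i j
    refine Fin.cases ?_ (fun i => ?_) i
    · simp [hB]
    · refine Fin.cases ?_ (fun j => ?_) j
      · simp [hM2, hB, hr]
      · simp [hM2, hB, hr, hM1, hMe]
  have e6 : det B = s * det (K.submatrix Fin.succ Fin.succ) := by
    rw [det_succ_column_zero, Fin.sum_univ_succ]
    have hz : ∀ i : Fin n, (-1 : R) ^ (i.succ : ℕ) * B i.succ 0
        * det (B.submatrix i.succ.succAbove Fin.succ) = 0 := by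
      intro i
      simp [hB]
    rw [Finset.sum_eq_zero (fun i _ => hz i), add_zero]
    have hs2 : B.submatrix (Fin.succAbove 0) Fin.succ = K.submatrix Fin.succ Fin.succ := by
      rw [Fin.succAbove_zero]
      rfl
    rw [hs2]
    simp [hB, hr]
  rw [← e1, ← e2, e4, e5, e6]
  ring

end

section
variable {R : Type*} [CommRing R] (t : Rˣ) {N : ℕ}

lemma kap_eq (β : Braid N) :
    kap t β = (∑ i : Fin (N + 1), (t : R) ^ (i : ℕ)) ^ 2 * mnr t β := by
  unfold kap mnr
  apply det_ker_add (1 - (burau t β).val) (wV t N)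
  · simp [wV]
  · intro i
    have h : (1 - (burau t β).val) *ᵥ (fun _ => (1 : R)) = 0 := by
      rw [sub_mulVec, burau_one, one_mulVec, sub_self]
    have := congrFun h i
    simpa [mulVec, dotProduct] using this
  · intro j
    have h : wV t N ᵥ* (1 - (burau t β).val) = 0 := by
      rw [vecMul_sub, wV_burau, vecMul_one, sub_self]
    have := congrFun h j
    simpa [vecMul, dotProduct] using this

lemma mnr_conj (hN : IsUnit (∑ i : Fin (N + 1), (t : R) ^ (i : ℕ))) (β γ : Braid N) :
    mnr t (γ⁻¹ * β * γ) = mnr t β := by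
  have h := kap_conj t β γ
  rw [kap_eq, kap_eq] at h
  exact (hN.pow 2).mul_left_cancel h

/-! ### Stabilisation -/

/-- Block diagonal sum with the one by one identity matrix. -/
def blk (A : Matrix (Fin (N + 1)) (Fin (N + 1)) R) : Matrix (Fin (N + 2)) (Fin (N + 2)) R :=
  fun i j => Fin.lastCases (motive := fun _ => R)
    (Fin.lastCases (motive := fun _ => R) 1 (fun _ => 0) j)
    (fun i' => Fin.lastCases (motive := fun _ => R) 0 (fun j' => A i' j') j) i

lemma blk_cc (A : Matrix (Fin (N + 1)) (Fin (N + 1)) R) (i j : Fin (N + 1)) :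
    blk A i.castSucc j.castSucc = A i j := by simp [blk]

lemma blk_cl (A : Matrix (Fin (N + 1)) (Fin (N + 1)) R) (i : Fin (N + 1)) :
    blk A i.castSucc (Fin.last (N + 1)) = 0 := by simp [blk]

lemma blk_lc (A : Matrix (Fin (N + 1)) (Fin (N + 1)) R) (j : Fin (N + 1)) :
    blk A (Fin.last (N + 1)) j.castSucc = 0 := by simp [blk]

lemma blk_ll (A : Matrix (Fin (N + 1)) (Fin (N + 1)) R) :
    blk A (Fin.last (N + 1)) (Fin.last (N + 1)) = 1 := by simp [blk]

lemma ext_last {A B : Matrix (Fin (N + 2)) (Fin (N + 2)) R}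
    (h1 : ∀ i j : Fin (N + 1), A i.castSucc j.castSucc = B i.castSucc j.castSucc)
    (h2 : ∀ i : Fin (N + 1), A i.castSucc (Fin.last (N + 1)) = B i.castSucc (Fin.last (N + 1)))
    (h3 : ∀ j : Fin (N + 1), A (Fin.last (N + 1)) j.castSucc = B (Fin.last (N + 1)) j.castSucc)
    (h4 : A (Fin.last (N + 1)) (Fin.last (N + 1)) = B (Fin.last (N + 1)) (Fin.last (N + 1))) :
    A = B := by
  funext i j
  refine Fin.lastCases ?_ (fun i => ?_) i
  · refine Fin.lastCases h4 (fun j => h3 j) j
  · refine Fin.lastCases (h2 i) (fun j => h1 i j) j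

lemma blk_one : blk (1 : Matrix (Fin (N + 1)) (Fin (N + 1)) R) = 1 := by
  apply ext_last
  · intro i j
    rw [blk_cc]
    simp [one_apply]
  · intro i
    rw [blk_cl, one_apply_ne (Fin.castSucc_lt_last i).ne]
  · intro i
    rw [blk_lc, one_apply_ne (Fin.castSucc_lt_last i).ne']
  · rw [blk_ll, one_apply_eq]

lemma blk_mul (A B : Matrix (Fin (N + 1)) (Fin (N + 1)) R) : blk (A * B) = blk A * blk B := by
  apply ext_last
  · intro i j
    rw [blk_cc, mul_apply (M := blk A), Fin.sum_univ_castSucc]
    simp only [blk_cc, blk_cl, zero_mul, add_zero]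
    rw [mul_apply]
  · intro i
    rw [blk_cl, mul_apply, Fin.sum_univ_castSucc]
    simp only [blk_cl, mul_zero, zero_mul, Finset.sum_const_zero, add_zero]
  · intro i
    rw [blk_lc, mul_apply, Fin.sum_univ_castSucc]
    simp only [blk_lc, mul_zero, zero_mul, Finset.sum_const_zero, add_zero]
  · rw [blk_ll, mul_apply, Fin.sum_univ_castSucc]
    simp only [blk_lc, blk_ll, zero_mul, Finset.sum_const_zero, zero_add, mul_one]

/-- `blk` as a homomorphism of monoids. -/
def blkHom : Matrix (Fin (N + 1)) (Fin (N + 1)) R →* Matrix (Fin (N + 2)) (Fin (N + 2)) R where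
  toFun := blk
  map_one' := blk_one
  map_mul' := blk_mul

lemma SM_up (k : Fin N) : (SM t k.castSucc).val = blk (SM t k).val := by
  show 1 + vecMulVec (uV t k.castSucc) (vV k.castSucc)
    = blk (1 + vecMulVec (uV t k) (vV k))
  have hl1 : Fin.last (N + 1) ≠ (k.castSucc).castSucc := (Fin.castSucc_lt_last _).ne'
  have hl2 : Fin.last (N + 1) ≠ (k.castSucc).succ := by
    intro h; have := congrArg Fin.val h; simp at this; omega
  have hc : (k.castSucc).succ = (k.succ).castSucc := rfl
  have hcs : ∀ i : Fin (N + 1), i.castSucc = k.castSucc.succ ↔ i = k.succ := by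
    intro i
    rw [hc]
    exact Fin.castSucc_inj
  have hu : ∀ i : Fin (N + 1), uV t k.castSucc i.castSucc = uV t k i := by
    intro i
    unfold uV
    simp [Pi.single_apply, hcs]
  have hv : ∀ i : Fin (N + 1), vV (R := R) k.castSucc i.castSucc = vV k i := by
    intro i
    unfold vV
    simp [Pi.single_apply, hcs]
  have hul : uV t k.castSucc (Fin.last (N + 1)) = 0 := by
    unfold uV
    simp [Pi.single_apply, hl1, hl2]
  have hvl : vV (R := R) k.castSucc (Fin.last (N + 1)) = 0 := by
    unfold vV
    simp [Pi.single_apply, hl1, hl2]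
  apply ext_last
  · intro i j
    rw [blk_cc, Matrix.add_apply, Matrix.add_apply, vecMulVec_apply, vecMulVec_apply, hu, hv]
    congr 1
    simp [one_apply]
  · intro i
    rw [blk_cl, Matrix.add_apply, vecMulVec_apply, hvl, one_apply_ne (Fin.castSucc_lt_last i).ne]
    ring
  · intro i
    rw [blk_lc, Matrix.add_apply, vecMulVec_apply, hul, one_apply_ne (Fin.castSucc_lt_last i).ne']
    ring
  · rw [blk_ll, Matrix.add_apply, vecMulVec_apply, hul, one_apply_eq]
    ring

lemma burau_up (β : Braid N) : (burau t (up β)).val = blk (burau t β).val := by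
  have h : (burau t).comp (up (N := N)) = (Units.map blkHom).comp (burau t) := by
    apply PresentedGroup.ext
    intro k
    show burau t (up (sig k)) = Units.map blkHom (burau t (sig k))
    rw [up_sig, burau_sig, burau_sig]
    apply Units.ext
    exact SM_up t k
  have := congrArg (fun f => (f β).val) h
  exact this

lemma mnr_stab_aux (β : Braid N) (c : R) (β' : Braid (N + 1))
    (h : (burau t β').val = blk (burau t β).val
      * (1 + c • PM t (Fin.last N))) : mnr t β' = c * mnr t β := by
  unfold mnr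
  rw [h]
  set A := (burau t β).val with hA
  set x : Fin (N + 2) → R := blk A *ᵥ uV t (Fin.last N) with hx
  have e0 : 1 - blk A * (1 + c • PM t (Fin.last N))
      = 1 - blk A - c • vecMulVec x (vV (Fin.last N)) := by
    rw [mul_add, mul_one, mul_smul_comm]
    unfold PM
    rw [mul_vecMulVec]
    abel
  rw [e0]
  have hxl : x (Fin.last (N + 1)) = 1 := by
    rw [hx]
    unfold mulVec dotProduct
    rw [Fin.sum_univ_castSucc]
    simp only [blk_lc, blk_ll, zero_mul, Finset.sum_const_zero, zero_add, one_mul]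
    have h1 : Fin.last (N + 1) ≠ (Fin.last N).castSucc := (Fin.castSucc_lt_last _).ne'
    unfold uV
    simp [Pi.single_apply]
  have hvl : vV (R := R) (Fin.last N) (Fin.last (N + 1)) = -1 := by
    unfold vV
    simp [Pi.single_apply]
  have hvn : vV (R := R) (Fin.last N) (Fin.last N).castSucc = 1 := by
    unfold vV
    simp [Pi.single_apply]
  have hvc : ∀ i : Fin (N + 1), i ≠ Fin.last N → vV (R := R) (Fin.last N) i.castSucc = 0 := by
    intro i hi
    unfold vV
    have h1 : i.castSucc ≠ Fin.last (N + 1) := (Fin.castSucc_lt_last i).ne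
    simp [Pi.single_apply, hi, h1]
  set M := 1 - blk A - c • vecMulVec x (vV (Fin.last N)) with hM
  have hMe : ∀ i j, M i j = (1 : Matrix (Fin (N + 2)) (Fin (N + 2)) R) i j - blk A i j
      - c * (x i * vV (Fin.last N) j) := by
    intro i j
    rw [hM]
    simp [vecMulVec_apply]
  -- entries in the last column
  have hMl : ∀ i : Fin (N + 1), M i.castSucc (Fin.last (N + 1)) = c * x i.castSucc := by
    intro i
    rw [hMe, hvl, blk_cl, one_apply_ne (Fin.castSucc_lt_last i).ne]
    ring
  have hMll : M (Fin.last (N + 1)) (Fin.last (N + 1)) = c := by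
    rw [hMe, hvl, blk_ll, one_apply_eq, hxl]
    ring
  have hMlc : ∀ j : Fin (N + 1), M (Fin.last (N + 1)) j.castSucc
      = if j = Fin.last N then -c else 0 := by
    intro j
    rw [hMe, blk_lc, hxl, one_apply_ne (Fin.castSucc_lt_last j).ne']
    split_ifs with hj
    · rw [hj, hvn]; ring
    · rw [hvc j hj]; ring
  have hMcc : ∀ i j : Fin (N + 1), M i.castSucc j.castSucc
      = (1 - A) i j - if j = Fin.last N then c * x i.castSucc else 0 := by
    intro i j
    rw [hMe, blk_cc, Matrix.sub_apply]
    have h1 : (1 : Matrix (Fin (N + 2)) (Fin (N + 2)) R) i.castSucc j.castSucc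
        = (1 : Matrix (Fin (N + 1)) (Fin (N + 1)) R) i j := by simp [one_apply]
    rw [h1]
    split_ifs with hj
    · rw [hj, hvn]; ring
    · rw [hvc j hj]; ring
  -- column operation
  set d : Fin (N + 1) → R := fun i => if (i : ℕ) + 1 = N then 1 else 0 with hd
  set B : Matrix (Fin (N + 1)) (Fin (N + 1)) R :=
    fun i j => M j.succ i.succ + d i * M j.succ (Fin.last (N + 1)) with hB
  have hdl : d (Fin.last N) = 0 := by simp [hd]
  have e1 : det (M.submatrix Fin.succ Fin.succ) = det B := by
    rw [← det_transpose]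
    apply det_eq_of_forall_row_eq_smul_add_const (fun i => -d i) (Fin.last N) (by simp [hdl])
    intro i j
    simp only [transpose_apply, submatrix_apply, hB, hdl, Fin.succ_last]
    ring
  rw [e1, det_succ_column B (Fin.last N), Fin.sum_univ_castSucc]
  have hcs : ∀ i : Fin N, i.castSucc.succ = i.succ.castSucc := fun i => rfl
  have hdi : ∀ i : Fin N, d i.castSucc = if i.succ = Fin.last N then 1 else 0 := by
    intro i
    simp only [hd, Fin.ext_iff, Fin.val_castSucc, Fin.val_succ, Fin.val_last]
  have hz : ∀ i : Fin N, B i.castSucc (Fin.last N) = 0 := by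
    intro i
    simp only [hB, Fin.succ_last, hcs, hMlc, hMll, hdi]
    split_ifs <;> ring
  have hsub : B.submatrix Fin.castSucc Fin.castSucc = ((1 - A).submatrix Fin.succ Fin.succ)ᵀ := by
    funext i j
    change M j.castSucc.succ i.castSucc.succ + d i.castSucc * M j.castSucc.succ (Fin.last (N + 1))
      = (1 - A) j.succ i.succ
    rw [hcs, hcs, hMcc, hMl, hdi]
    split_ifs <;> ring
  have hBl : B (Fin.last N) (Fin.last N) = c := by
    simp only [hB, Fin.succ_last, hMll, hdl]
    ring
  simp only [hz, mul_zero, zero_mul, Finset.sum_const_zero, zero_add, hBl, Fin.succAbove_last,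
    hsub, det_transpose]
  rw [← two_mul, pow_mul]
  ring

lemma mnr_stab_pos (β : Braid N) : mnr t (up β * sig (Fin.last N)) = mnr t β := by
  rw [mnr_stab_aux t β 1, one_mul]
  rw [map_mul, Units.val_mul, burau_up, burau_sig_val, one_smul]

lemma mnr_stab_neg (β : Braid N) :
    mnr t (up β * (sig (Fin.last N))⁻¹) = ((t⁻¹ : Rˣ) : R) * mnr t β := by
  rw [mnr_stab_aux t β ((t⁻¹ : Rˣ) : R)]
  rw [map_mul, Units.val_mul, burau_up, burau_sig_inv_val]

/-! ### The skein relation -/

lemma det_rank_one {n : ℕ} (A : Matrix (Fin n) (Fin n) R) (x y : Fin n → R) :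
    ∃ K : R, ∀ c : R, det (A - c • vecMulVec x y) = det A + c * K := by
  classical
  let F : R → R → Matrix (Fin n ⊕ Unit) (Fin n ⊕ Unit) R := fun c e =>
    fromBlocks A (Matrix.of fun i _ => x i) (Matrix.of fun _ j => c * y j)
      (Matrix.of fun _ _ => e)
  refine ⟨det (F 1 0), fun c => ?_⟩
  have h1 : ∀ c, det (A - c • vecMulVec x y) = det (F c 1) := by
    intro c
    have : (Matrix.of fun _ _ => (1 : R) : Matrix Unit Unit R) = 1 := by
      ext i j
      simp
    simp only [F]
    rw [this, det_fromBlocks_one₂₂]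
    congr 1
    ext i j
    simp [mul_apply, vecMulVec_apply, mul_left_comm]
  have hrow : ∀ c e, F c e = (F 1 0).updateRow (Sum.inr ()) (Sum.elim (fun j => c * y j)
      (fun _ => e)) := by
    intro c e
    ext i j
    rcases i with i | i
    · rcases j with j | j <;> simp [F]
    · rcases j with j | j <;> simp [F]
  have hsplit : (Sum.elim (fun j => c * y j) (fun _ => (1 : R)) : Fin n ⊕ Unit → R)
      = c • (Sum.elim (fun j => 1 * y j) (fun _ => (0 : R)) : Fin n ⊕ Unit → R)
        + Sum.elim (fun j => 0 * y j) (fun _ => (1 : R)) := by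
    funext j
    rcases j with j | j <;> simp
  rw [h1, hrow, hsplit, det_updateRow_add, det_updateRow_smul, ← hrow, ← hrow, ← h1]
  rw [zero_smul, sub_zero]
  ring

lemma mnr_skein (g h : Braid N) (k : Fin N) :
    ∃ K : R, mnr t (g * sig k * h) = mnr t (g * h) + K ∧
      mnr t (g * (sig k)⁻¹ * h) = mnr t (g * h) + ((t⁻¹ : Rˣ) : R) * K := by
  obtain ⟨K, hK⟩ := det_rank_one ((1 - (burau t (g * h)).val).submatrix Fin.succ Fin.succ)
    (fun i => ((burau t g).val *ᵥ uV t k) i.succ) (fun j => (vV k ᵥ* (burau t h).val) j.succ)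
  have key : ∀ (c : R) (γ : Braid N), (burau t γ).val
      = (burau t g).val * (1 + c • PM t k) * (burau t h).val → mnr t γ = mnr t (g * h) + c * K := by
    intro c γ hγ
    unfold mnr
    rw [← hK c]
    congr 1
    rw [hγ, map_mul, Units.val_mul, mul_add, mul_one, add_mul, mul_smul_comm, smul_mul_assoc]
    unfold PM
    rw [mul_vecMulVec, vecMulVec_mul]
    funext i j
    simp [vecMulVec_apply]
    ring
  refine ⟨K, ?_, ?_⟩
  · rw [key 1 _ (by rw [map_mul, map_mul, Units.val_mul, Units.val_mul, burau_sig_val, one_smul]),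
      one_mul]
  · rw [key ((t⁻¹ : Rˣ) : R) _ (by rw [map_mul, map_mul, Units.val_mul, Units.val_mul,
      burau_sig_inv_val])]

end

end Pool.Agent.H.MP_ca6624_gt
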