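import Pool.Agent.H.MP_ca6624_gt.Split
import Pool.Agent.H.MP_ca6624_gt.Exch

set_option autoImplicit false

namespace Pool.Agent.H.MP_ca6624_gt

/-- The group algebra of the braid group on four strands. -/
abbrev AA : Type := MonoidAlgebra ℂ (Braid 3)

/-- The inclusion of the group in the group algebra. -/
noncomputable def ee : Braid 3 →* AA := MonoidAlgebra.of ℂ (Braid 3)

/-- The linear extension of a function on the group. -/
noncomputable def lin {V : Type*} [AddCommGroup V] [Module ℂ V] (F : Braid 3 → V) : AA →ₗ[ℂ] V :=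
  (Finsupp.linearCombination ℂ F) ∘ₗ (MonoidAlgebra.coeffLinearEquiv ℂ).toLinearMap

lemma lin_ee {V : Type*} [AddCommGroup V] [Module ℂ V] (F : Braid 3 → V) (β : Braid 3) :
    lin F (ee β) = F β := by
  unfold lin ee
  rw [LinearMap.comp_apply, MonoidAlgebra.of_apply]
  simp

lemma AA_induction {P : AA → Prop} (x : AA) (h1 : ∀ β, P (ee β))
    (h2 : ∀ x y, P x → P y → P (x + y)) (h3 : ∀ (r : ℂ) (x), P x → P (r • x)) : P x :=
  MonoidAlgebra.induction_on x h1 h2 h3

/-! ### The filtration -/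

/-- The span of the first differences. -/
noncomputable def JJ : Submodule ℂ AA :=
  Submodule.span ℂ {x | ∃ (g h : Braid 3) (k : Fin 3),
    x = ee g * (ee (sig k) - ee (sig k)⁻¹) * ee h}

lemma ee_mul_JJ (g : Braid 3) {x : AA} (hx : x ∈ JJ) : ee g * x ∈ JJ := by
  unfold JJ at hx ⊢
  induction hx using Submodule.span_induction with
  | mem x hx =>
    obtain ⟨g', h, k, rfl⟩ := hx
    apply Submodule.subset_span
    refine ⟨g * g', h, k, ?_⟩
    rw [map_mul]
    simp only [mul_assoc]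
  | zero => rw [mul_zero]; exact Submodule.zero_mem _
  | add x y _ _ hx hy => rw [mul_add]; exact Submodule.add_mem _ hx hy
  | smul r x _ hx => rw [mul_smul_comm]; exact Submodule.smul_mem _ _ hx

lemma JJ_mul_ee (g : Braid 3) {x : AA} (hx : x ∈ JJ) : x * ee g ∈ JJ := by
  unfold JJ at hx ⊢
  induction hx using Submodule.span_induction with
  | mem x hx =>
    obtain ⟨g', h, k, rfl⟩ := hx
    apply Submodule.subset_span
    refine ⟨g', h * g, k, ?_⟩
    rw [map_mul]
    simp only [mul_assoc]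
  | zero => rw [zero_mul]; exact Submodule.zero_mem _
  | add x y _ _ hx hy => rw [add_mul]; exact Submodule.add_mem _ hx hy
  | smul r x _ hx => rw [smul_mul_assoc]; exact Submodule.smul_mem _ _ hx

lemma ee_mul_pow (g : Braid 3) (r : ℕ) {x : AA} (hx : x ∈ JJ ^ (r + 1)) :
    ee g * x ∈ JJ ^ (r + 1) := by
  rw [pow_succ'] at hx ⊢
  induction hx using Submodule.mul_induction_on' with
  | mem_mul_mem a ha b hb =>
    rw [← mul_assoc]
    exact Submodule.mul_mem_mul (ee_mul_JJ g ha) hb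
  | add x _ y _ hx hy => rw [mul_add]; exact Submodule.add_mem _ hx hy

lemma pow_mul_ee (g : Braid 3) (r : ℕ) {x : AA} (hx : x ∈ JJ ^ (r + 1)) :
    x * ee g ∈ JJ ^ (r + 1) := by
  rw [pow_succ] at hx ⊢
  induction hx using Submodule.mul_induction_on' with
  | mem_mul_mem a ha b hb =>
    rw [mul_assoc]
    exact Submodule.mul_mem_mul ha (JJ_mul_ee g hb)
  | add x _ y _ hx hy => rw [add_mul]; exact Submodule.add_mem _ hx hy

lemma mul_mem_pow {r s : ℕ} {x y : AA} (hx : x ∈ JJ ^ r) (hy : y ∈ JJ ^ s) :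
    x * y ∈ JJ ^ (r + s) := by
  rw [pow_add]
  exact Submodule.mul_mem_mul hx hy

/-- The element of the group algebra that corresponds to a singular braid. -/
noncomputable def sing : Braid 3 → List (Fin 3 × Braid 3) → AA
  | g, [] => ee g
  | g, (k, h) :: l => sing (g * sig k * h) l - sing (g * (sig k)⁻¹ * h) l

lemma sing_cons (g h : Braid 3) (k : Fin 3) (l : List (Fin 3 × Braid 3)) :
    sing g ((k, h) :: l) = sing (g * sig k * h) l - sing (g * (sig k)⁻¹ * h) l := rfl

lemma lin_sing (F : Braid 3 → ℂ) (l : List (Fin 3 × Braid 3)) :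
    ∀ g, lin F (sing g l) = onSingular F g l := by
  induction l with
  | nil => intro g; exact lin_ee F g
  | cons p l ih =>
    obtain ⟨k, h⟩ := p
    intro g
    unfold sing onSingular
    rw [map_sub, ih, ih]

lemma ee_mul_sing (x : Braid 3) (l : List (Fin 3 × Braid 3)) :
    ∀ g, ee x * sing g l = sing (x * g) l := by
  induction l with
  | nil =>
    intro g
    unfold sing
    rw [map_mul]
  | cons p l ih =>
    obtain ⟨k, h⟩ := p
    intro g
    unfold sing
    rw [mul_sub, ih, ih]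
    simp only [mul_assoc]

lemma pow_le_sing (r : ℕ) :
    JJ ^ r ≤ Submodule.span ℂ {x | ∃ (g : Braid 3) (l : List (Fin 3 × Braid 3)),
      l.length = r ∧ x = sing g l} := by
  induction r with
  | zero =>
    rw [pow_zero, Submodule.one_eq_span, Submodule.span_le]
    rintro x hx
    rw [Set.mem_singleton_iff] at hx
    apply Submodule.subset_span
    refine ⟨1, [], rfl, ?_⟩
    rw [hx]
    unfold sing
    rw [map_one]
  | succ r ih =>
    rw [pow_succ']
    refine (mul_le_mul_right ih _).trans ?_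
    unfold JJ
    rw [Submodule.span_mul_span, Submodule.span_le]
    rintro x ⟨a, ⟨g, h, k, rfl⟩, b, ⟨g', l, hl, rfl⟩, rfl⟩
    apply Submodule.subset_span
    refine ⟨g, (k, h * g') :: l, by simp [hl], ?_⟩
    rw [sing_cons, ← mul_assoc, ← mul_assoc, ← ee_mul_sing, ← ee_mul_sing, ← sub_mul]
    show ee g * (ee (sig k) - ee (sig k)⁻¹) * ee h * sing g' l = _
    congr 1
    simp only [map_mul, mul_sub, sub_mul]

lemma lin_eq_zero_of_mem (w : Link 4 → ℂ) (d : ℕ) (hw : HasDegreeAtMost d w) (r : ℕ) (hr : d < r)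
    {x : AA} (hx : x ∈ JJ ^ r) : lin (onClosure w id) x = 0 := by
  have h1 : JJ ^ r ≤ LinearMap.ker (lin (onClosure w id)) := by
    refine (pow_le_sing r).trans ?_
    rw [Submodule.span_le]
    rintro x ⟨g, l, hl, rfl⟩
    show lin (onClosure w id) (sing g l) = 0
    rw [lin_sing]
    exact hw 3 id g l (by rw [hl]; exact hr)
  exact h1 hx

/-! ### The pure braids -/

/-- The pure braid that links the strands `0` and `3`. -/
def bA : Braid 3 := sig 2 * sig 1 * (sig 0 * sig 0) * (sig 1)⁻¹ * (sig 2)⁻¹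

/-- The pure braid that links the strands `1` and `3`. -/
def bB : Braid 3 := sig 2 * (sig 1 * sig 1) * (sig 2)⁻¹

/-- The pure braid that links the strands `2` and `3`. -/
def bC : Braid 3 := sig 2 * sig 2

/-- The pure braid that links the strands `0` and `1`. -/
def bD : Braid 3 := sig 0 * sig 0

/-- The pure braid that links the strands `1` and `2`. -/
def bE : Braid 3 := sig 1 * sig 1

/-- The commutator of the last two. -/
def bG : Braid 3 := bD * bE * bD⁻¹ * bE⁻¹

lemma perm_sig_sq (k : Fin 3) : perm (sig k) * perm (sig k) = 1 := by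
  rw [perm_sig, Equiv.swap_mul_self]

lemma perm_bA : perm bA = 1 := by
  unfold bA
  simp only [map_mul, perm_sig_sq, mul_one, map_inv]
  group

lemma perm_bB : perm bB = 1 := by
  unfold bB
  simp only [map_mul, perm_sig_sq, mul_one, map_inv]
  group

lemma perm_bC : perm bC = 1 := by
  unfold bC
  simp only [map_mul, perm_sig_sq]

lemma perm_bD : perm bD = 1 := by
  unfold bD
  simp only [map_mul, perm_sig_sq]

lemma perm_bE : perm bE = 1 := by
  unfold bE
  simp only [map_mul, perm_sig_sq]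

lemma perm_bG : perm bG = 1 := by
  unfold bG
  simp [perm_bD, perm_bE]

lemma gen_mem (g h : Braid 3) (k : Fin 3) : ee (g * sig k * h) - ee (g * (sig k)⁻¹ * h) ∈ JJ := by
  apply Submodule.subset_span
  refine ⟨g, h, k, ?_⟩
  simp only [map_mul, mul_sub, sub_mul]

lemma bA_mem : ee bA - 1 ∈ JJ ^ 1 := by
  rw [pow_one]
  have h := gen_mem (sig 2 * sig 1) (sig 0 * (sig 1)⁻¹ * (sig 2)⁻¹) 0
  have e1 : sig 2 * sig 1 * sig 0 * (sig 0 * (sig 1)⁻¹ * (sig 2)⁻¹) = bA := by
    unfold bA
    group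
  have e2 : sig 2 * sig 1 * (sig 0)⁻¹ * (sig 0 * (sig 1)⁻¹ * (sig 2)⁻¹) = (1 : Braid 3) := by
    group
  rwa [e1, e2, map_one] at h

lemma bB_mem : ee bB - 1 ∈ JJ ^ 1 := by
  rw [pow_one]
  have h := gen_mem (sig 2) (sig 1 * (sig 2)⁻¹) 1
  have e1 : sig 2 * sig 1 * (sig 1 * (sig 2)⁻¹) = bB := by
    unfold bB
    group
  have e2 : sig 2 * (sig 1)⁻¹ * (sig 1 * (sig 2)⁻¹) = (1 : Braid 3) := by
    group
  rwa [e1, e2, map_one] at h

lemma sq_mem (k : Fin 3) : ee (sig k * sig k) - 1 ∈ JJ ^ 1 := by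
  rw [pow_one]
  have h := gen_mem 1 (sig k) k
  have e2 : 1 * (sig k)⁻¹ * sig k = (1 : Braid 3) := by
    group
  rwa [e2, map_one, one_mul] at h

lemma ee_inv_mul (x : Braid 3) : ee x⁻¹ * ee x = 1 := by
  rw [← map_mul, inv_mul_cancel, map_one]

lemma ee_mul_inv (x : Braid 3) : ee x * ee x⁻¹ = 1 := by
  rw [← map_mul, mul_inv_cancel, map_one]

lemma pow_mem (x : AA) (hx : x ∈ JJ ^ 1) (i : ℕ) : x ^ i ∈ JJ ^ i := by
  have := Submodule.pow_mem_pow (JJ ^ 1) hx i
  rwa [← pow_mul, one_mul] at this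

/-- The building blocks. -/
noncomputable def yy (j : ℕ) : AA := (ee bB - 1) ^ j - ee bC⁻¹ * (ee bB - 1) ^ j * ee bC

lemma yy_mem (j : ℕ) : yy j ∈ JJ ^ (j + 1) := by
  have e : yy j = ee bC⁻¹ * ((ee bC - 1) * (ee bB - 1) ^ j - (ee bB - 1) ^ j * (ee bC - 1)) := by
    unfold yy
    have h := ee_inv_mul bC
    have h2 : ee bC⁻¹ * (ee bC * (ee bB - 1) ^ j) = (ee bB - 1) ^ j := by
      rw [← mul_assoc, h, one_mul]
    simp only [sub_mul, mul_sub, one_mul, mul_one, h2]
    simp only [mul_assoc]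
    abel
  rw [e]
  apply ee_mul_pow
  have h1 : (ee bC - 1) * (ee bB - 1) ^ j ∈ JJ ^ (j + 1) := by
    rw [add_comm]
    exact mul_mem_pow (sq_mem 2) (pow_mem _ bB_mem j)
  have h2 : (ee bB - 1) ^ j * (ee bC - 1) ∈ JJ ^ (j + 1) :=
    mul_mem_pow (pow_mem _ bB_mem j) (sq_mem 2)
  exact Submodule.sub_mem _ h1 h2

lemma bG_eq : ee bG - 1 = ((ee bD - 1) * (ee bE - 1) - (ee bE - 1) * (ee bD - 1))
    * ee (bD⁻¹ * bE⁻¹) := by
  have h1 : ee (bE * bD) * ee (bD⁻¹ * bE⁻¹) = 1 := by
    rw [← map_mul]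
    have : bE * bD * (bD⁻¹ * bE⁻¹) = 1 := by group
    rw [this, map_one]
  have h2 : ee bG = ee (bD * bE) * ee (bD⁻¹ * bE⁻¹) := by
    rw [← map_mul]
    unfold bG
    rw [mul_assoc (bD * bE)]
  conv_lhs => rw [h2, ← h1, ← sub_mul]
  congr 1
  rw [map_mul, map_mul]
  noncomm_ring

lemma bG_mem : ee bG - 1 ∈ JJ ^ 2 := by
  rw [bG_eq]
  apply pow_mul_ee
  have hD : ee bD - 1 ∈ JJ ^ 1 := sq_mem 0
  have hE : ee bE - 1 ∈ JJ ^ 1 := sq_mem 1
  exact Submodule.sub_mem _ (mul_mem_pow hD hE) (mul_mem_pow hE hD)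

/-- The coefficients. -/
noncomputable def xx (i j : ℕ) : AA := (ee bA - 1) ^ i * yy j * (ee bG - 1)

lemma xx_mem (i j : ℕ) : xx i j ∈ JJ ^ (i + (j + 1) + 2) :=
  mul_mem_pow (mul_mem_pow (pow_mem _ bA_mem i) (yy_mem j)) bG_mem

lemma yy_zero : yy 0 = 0 := by
  unfold yy
  rw [pow_zero, mul_one, ee_inv_mul, sub_self]

/-! ### The vanishing that comes from the exchange move -/

lemma isLabelling_one : IsLabelling (1 : Braid 3) (id : Fin 4 → Fin 4) where
  closed := by intro a; rw [map_one]; rfl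
  connected := by
    intro a b hab
    rw [show a = b from hab]
  surjective := Function.surjective_id

/-- The preimage of `bE` in the braid group on three strands. -/
def bE' : Braid 2 := sig 1 * sig 1

lemma up_bE' : up bE' = bE := by
  unfold bE' bE
  rw [map_mul, up_sig]
  rfl

/-- The preimage of `bG` in the braid group on three strands. -/
def bG' : Braid 2 := sig 0 * sig 0 * (sig 1 * sig 1) * (sig 0 * sig 0)⁻¹ * (sig 1 * sig 1)⁻¹

lemma up_bG' : up bG' = bG := by
  unfold bG' bG bD bE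
  simp only [map_mul, map_inv, up_sig]
  rfl

lemma perm_sig_sq' (k : Fin 2) : perm (sig k) * perm (sig k) = 1 := by
  rw [perm_sig, Equiv.swap_mul_self]

lemma exch_bB (w : Link 4 → ℂ) (g : Braid 2) (hg : perm g = 1) (k : ℕ) :
    onClosure w id (bB ^ k * up g) = onClosure w id (bC⁻¹ * bB ^ k * bC * up g) := by
  have hY : perm (bE' ^ k) = 1 := by
    rw [map_pow]
    unfold bE'
    rw [map_mul, perm_sig_sq', one_pow]
  have h := exchange w g (bE' ^ k) hg hY id isLabelling_one
  have hug := perm_up_one g hg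
  have huY : perm (bE ^ k) = 1 := by rw [map_pow, perm_bE, one_pow]
  have hs : sig (Fin.last 2) = (sig 2 : Braid 3) := rfl
  rw [map_pow, up_bE', hs] at h
  have hB : bB ^ k = sig 2 * bE ^ k * (sig 2)⁻¹ := by
    unfold bB bE
    rw [← conj_pow]
  have hCB : bC⁻¹ * bB ^ k * bC = (sig 2)⁻¹ * bE ^ k * sig 2 := by
    rw [hB]
    unfold bC
    group
  rw [hCB, hB]
  have l1 : IsLabelling (up g * sig 2 * bE ^ k * (sig 2)⁻¹) (id : Fin 4 → Fin 4) := by
    apply isLabelling_congr _ isLabelling_one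
    simp only [map_mul, hug, huY, map_one, mul_one, one_mul, map_inv, mul_inv_cancel]
  have l2 : IsLabelling (up g * (sig 2)⁻¹ * bE ^ k * sig 2) (id : Fin 4 → Fin 4) := by
    apply isLabelling_congr _ isLabelling_one
    simp only [map_mul, hug, huY, map_one, mul_one, one_mul, map_inv, inv_mul_cancel]
  have c1 := onClosure_conj w l1 (up g)
  have c2 := onClosure_conj w l2 (up g)
  have e1 : (up g)⁻¹ * (up g * sig 2 * bE ^ k * (sig 2)⁻¹) * up g
      = sig 2 * bE ^ k * (sig 2)⁻¹ * up g := by group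
  have e2 : (up g)⁻¹ * (up g * (sig 2)⁻¹ * bE ^ k * sig 2) * up g
      = (sig 2)⁻¹ * bE ^ k * sig 2 * up g := by group
  have hid : (id : Fin 4 → Fin 4) ∘ perm (up g) = id := by
    rw [hug]
    rfl
  rw [hid, e1] at c1
  rw [hid, e2] at c2
  rw [c1, c2, h]

lemma exch_lin (w : Link 4 → ℂ) (k : ℕ) :
    lin (onClosure w id) ((ee bB ^ k - ee bC⁻¹ * ee bB ^ k * ee bC) * (ee bG - 1)) = 0 := by
  have h1 := exch_bB w 1 (by rw [map_one]) k
  have hG' : perm bG' = 1 := by
    unfold bG'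
    simp only [map_mul, map_inv, perm_sig_sq', mul_one, inv_one]
  have h2 := exch_bB w bG' hG' k
  rw [map_one, mul_one, mul_one] at h1
  rw [up_bG'] at h2
  have e : (ee bB ^ k - ee bC⁻¹ * ee bB ^ k * ee bC) * (ee bG - 1)
      = ee (bB ^ k * bG) - ee (bC⁻¹ * bB ^ k * bC * bG)
        - (ee (bB ^ k) - ee (bC⁻¹ * bB ^ k * bC)) := by
    simp only [map_mul, map_pow]
    noncomm_ring
  rw [e, map_sub, map_sub, map_sub, lin_ee, lin_ee, lin_ee, lin_ee, h1, h2]
  ring

lemma exch_lin' (w : Link 4 → ℂ) (j : ℕ) : ∀ k : ℕ,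
    lin (onClosure w id) ((ee bB ^ k * (ee bB - 1) ^ j
      - ee bC⁻¹ * (ee bB ^ k * (ee bB - 1) ^ j) * ee bC) * (ee bG - 1)) = 0 := by
  induction j with
  | zero =>
    intro k
    rw [pow_zero, mul_one]
    exact exch_lin w k
  | succ j ih =>
    intro k
    have e : (ee bB ^ k * (ee bB - 1) ^ (j + 1)
        - ee bC⁻¹ * (ee bB ^ k * (ee bB - 1) ^ (j + 1)) * ee bC) * (ee bG - 1)
        = (ee bB ^ (k + 1) * (ee bB - 1) ^ j
          - ee bC⁻¹ * (ee bB ^ (k + 1) * (ee bB - 1) ^ j) * ee bC) * (ee bG - 1)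
        - (ee bB ^ k * (ee bB - 1) ^ j
          - ee bC⁻¹ * (ee bB ^ k * (ee bB - 1) ^ j) * ee bC) * (ee bG - 1) := by
      have e1 : ee bB ^ k * (ee bB - 1) ^ (j + 1)
          = ee bB ^ (k + 1) * (ee bB - 1) ^ j - ee bB ^ k * (ee bB - 1) ^ j := by
        rw [pow_succ' (ee bB - 1), pow_succ (ee bB), ← mul_assoc, mul_sub, mul_one, sub_mul]
      rw [e1]
      generalize ee bB ^ (k + 1) * (ee bB - 1) ^ j = u
      generalize ee bB ^ k * (ee bB - 1) ^ j = v
      simp only [mul_sub, sub_mul]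
      abel
    rw [e, map_sub, ih, ih, sub_zero]

lemma lin_xx_zero_left (w : Link 4 → ℂ) (j : ℕ) : lin (onClosure w id) (xx 0 j) = 0 := by
  have h := exch_lin' w j 0
  unfold xx yy
  simpa only [pow_zero, one_mul] using h

lemma lin_xx_zero_right (w : Link 4 → ℂ) (i : ℕ) : lin (onClosure w id) (xx i 0) = 0 := by
  unfold xx
  rw [yy_zero, mul_zero, zero_mul, map_zero]

/-- The alternating sum. -/
noncomputable def PP (w : Link 4 → ℂ) (n : ℕ) : ℂ :=
  lin (onClosure w id) (ee bA ^ n * (ee bB ^ n - ee bC⁻¹ * ee bB ^ n * ee bC) * (ee bG - 1))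

lemma pow_expand (x : AA) (n D : ℕ) (hD : n < D) :
    x ^ n = ∑ i ∈ Finset.range D, (n.choose i : ℂ) • (x - 1) ^ i := by
  have h1 : x ^ n = ∑ i ∈ Finset.range (n + 1), (n.choose i : ℂ) • (x - 1) ^ i := by
    conv_lhs => rw [← sub_add_cancel x 1]
    rw [(Commute.one_right (x - 1)).add_pow]
    apply Finset.sum_congr rfl
    intro i _
    rw [one_pow, mul_one, ← Nat.cast_comm, ← nsmul_eq_mul, Nat.cast_smul_eq_nsmul]
  rw [h1]
  apply Finset.sum_subset
  · intro i hi
    rw [Finset.mem_range] at hi ⊢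
    omega
  · intro i _ hi
    rw [Finset.mem_range, not_lt] at hi
    rw [Nat.choose_eq_zero_of_lt (by omega), Nat.cast_zero, zero_smul]

lemma PP_expand (w : Link 4 → ℂ) (n D : ℕ) (hD : n < D) :
    PP w n = ∑ i ∈ Finset.range D, ∑ j ∈ Finset.range D,
      (n.choose i : ℂ) * (n.choose j : ℂ) * lin (onClosure w id) (xx i j) := by
  unfold PP
  have e : ee bA ^ n * (ee bB ^ n - ee bC⁻¹ * ee bB ^ n * ee bC) * (ee bG - 1)
      = ∑ i ∈ Finset.range D, ∑ j ∈ Finset.range D,
        ((n.choose i : ℂ) * (n.choose j : ℂ)) • xx i j := by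
    have e1 : ee bB ^ n - ee bC⁻¹ * ee bB ^ n * ee bC
        = ∑ j ∈ Finset.range D, (n.choose j : ℂ) • yy j := by
      unfold yy
      conv_lhs => rw [pow_expand (ee bB) n D hD]
      rw [Finset.mul_sum, Finset.sum_mul, ← Finset.sum_sub_distrib]
      apply Finset.sum_congr rfl
      intro j _
      rw [mul_smul_comm, smul_mul_assoc, smul_sub]
    rw [e1, pow_expand (ee bA) n D hD, Finset.sum_mul, Finset.sum_mul]
    apply Finset.sum_congr rfl
    intro i _
    rw [Finset.mul_sum, Finset.sum_mul]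
    apply Finset.sum_congr rfl
    intro j _
    unfold xx
    rw [smul_mul_smul_comm, smul_mul_assoc]
  rw [e, map_sum]
  apply Finset.sum_congr rfl
  intro i _
  rw [map_sum]
  apply Finset.sum_congr rfl
  intro j _
  rw [map_smul, smul_eq_mul]

lemma choose_poly (i : ℕ) : ∃ p : Polynomial ℂ, ∀ n : ℕ,
    (n.choose (i + 1) : ℂ) = n * p.eval (n : ℂ) := by
  refine ⟨Polynomial.C (1 / ((i + 1).factorial : ℂ))
    * (descPochhammer ℂ i).comp (Polynomial.X - 1), fun n => ?_⟩
  have h1 := descPochhammer_eval_eq_descFactorial ℂ n (i + 1)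
  rw [descPochhammer_succ_left, Polynomial.eval_mul, Polynomial.eval_X,
    Nat.descFactorial_eq_factorial_mul_choose] at h1
  have h2 : ((i + 1).factorial : ℂ) ≠ 0 := by exact_mod_cast (i + 1).factorial_ne_zero
  rw [Polynomial.eval_mul, Polynomial.eval_C]
  push_cast at h1
  field_simp
  linear_combination -h1

lemma PP_poly (w : Link 4 → ℂ) (d : ℕ) (hw : HasDegreeAtMost d w) :
    ∃ Q : Polynomial ℂ, ∀ n : ℕ, PP w n = n ^ 2 * Q.eval (n : ℂ) := by
  choose p hp using choose_poly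
  set c : ℕ → ℕ → ℂ := fun i j => lin (onClosure w id) (xx i j) with hc
  have hz : ∀ i j, d < i + (j + 1) + 2 → c i j = 0 := by
    intro i j hij
    exact lin_eq_zero_of_mem w d hw _ hij (xx_mem i j)
  refine ⟨∑ i ∈ Finset.range d, ∑ j ∈ Finset.range d,
    Polynomial.C (c (i + 1) (j + 1)) * (p i * p j), fun n => ?_⟩
  rw [PP_expand w n (n + d + 1) (by omega)]
  have h1 : ∀ i, ∑ j ∈ Finset.range (n + d + 1), (n.choose i : ℂ) * (n.choose j : ℂ) * c i j
      = ∑ j ∈ Finset.range (d + 1), (n.choose i : ℂ) * (n.choose j : ℂ) * c i j := by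
    intro i
    symm
    apply Finset.sum_subset
    · intro j hj
      rw [Finset.mem_range] at hj ⊢
      omega
    · intro j _ hj
      rw [Finset.mem_range, not_lt] at hj
      rw [hz i j (by omega), mul_zero]
  have h2 : ∑ i ∈ Finset.range (n + d + 1), ∑ j ∈ Finset.range (n + d + 1),
      (n.choose i : ℂ) * (n.choose j : ℂ) * c i j
      = ∑ i ∈ Finset.range (d + 1), ∑ j ∈ Finset.range (d + 1),
        (n.choose i : ℂ) * (n.choose j : ℂ) * c i j := by
    simp only [h1]
    symm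
    apply Finset.sum_subset
    · intro j hj
      rw [Finset.mem_range] at hj ⊢
      omega
    · intro i _ hi
      rw [Finset.mem_range, not_lt] at hi
      apply Finset.sum_eq_zero
      intro j _
      rw [hz i j (by omega), mul_zero]
  rw [h2, Finset.sum_range_succ']
  have h3 : ∑ j ∈ Finset.range (d + 1), (n.choose 0 : ℂ) * (n.choose j : ℂ) * c 0 j = 0 := by
    apply Finset.sum_eq_zero
    intro j _
    rw [hc]
    simp only
    rw [lin_xx_zero_left, mul_zero]
  rw [h3, add_zero, Polynomial.eval_finsetSum, Finset.mul_sum]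
  apply Finset.sum_congr rfl
  intro i _
  rw [Finset.sum_range_succ', Polynomial.eval_finsetSum, Finset.mul_sum]
  have h4 : c (i + 1) 0 = 0 := lin_xx_zero_right w _
  rw [h4, mul_zero, add_zero]
  apply Finset.sum_congr rfl
  intro j _
  rw [hp, hp, Polynomial.eval_mul, Polynomial.eval_mul, Polynomial.eval_C]
  ring

lemma PP_cw (w : Link 4 → ℂ) (hw : HasDegreeAtMost 5 w) (n : ℕ) :
    PP w n = n ^ 2 * lin (onClosure w id) (xx 1 1) := by
  have hz : ∀ i j, 5 < i + (j + 1) + 2 → lin (onClosure w id) (xx i j) = 0 := by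
    intro i j hij
    exact lin_eq_zero_of_mem w 5 hw _ hij (xx_mem i j)
  rw [PP_expand w n (n + 2) (by omega), Finset.sum_eq_single 1, Finset.sum_eq_single 1]
  · rw [Nat.choose_one_right]
    ring
  · intro j _ hj
    rcases Nat.eq_zero_or_pos j with h | h
    · rw [h, lin_xx_zero_right, mul_zero]
    · rw [hz 1 j (by omega), mul_zero]
  · intro h
    exact absurd (Finset.mem_range.2 (by omega)) h
  · intro i _ hi
    apply Finset.sum_eq_zero
    intro j _
    rcases Nat.eq_zero_or_pos i with h | h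
    · rw [h, lin_xx_zero_left, mul_zero]
    · rcases Nat.eq_zero_or_pos j with h' | h'
      · rw [h', lin_xx_zero_right, mul_zero]
      · rw [hz i j (by omega), mul_zero]
  · intro h
    exact absurd (Finset.mem_range.2 (by omega)) h

end Pool.Agent.H.MP_ca6624_gt
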