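import Pool.Agent.H.MP_ca6624_gt.Inv

set_option autoImplicit false

open Matrix PowerSeries

namespace Pool.Agent.H.MP_ca6624_gt

/-- The Burau matrix over `ℂ⟦X⟧`. -/
noncomputable def Psi {N : ℕ} (β : Braid N) : Matrix (Fin (N + 1)) (Fin (N + 1)) ℂ⟦X⟧ :=
  (burau tS β).val

/-- Its constant term. -/
noncomputable def Psi0 {N : ℕ} (β : Braid N) : Matrix (Fin (N + 1)) (Fin (N + 1)) ℂ :=
  (Psi β).map constantCoeff

/-- Its linear term. -/
noncomputable def Psi1 {N : ℕ} (β : Braid N) : Matrix (Fin (N + 1)) (Fin (N + 1)) ℂ :=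
  (Psi β).map (coeff 1)

lemma Psi_mul {N : ℕ} (β γ : Braid N) : Psi (β * γ) = Psi β * Psi γ := by
  unfold Psi
  rw [map_mul, Units.val_mul]

lemma Psi_one {N : ℕ} : Psi (1 : Braid N) = 1 := by
  unfold Psi
  rw [map_one, Units.val_one]

lemma Psi0_one {N : ℕ} : Psi0 (1 : Braid N) = 1 := by
  unfold Psi0
  rw [Psi_one, Matrix.map_one _ (map_zero _) (map_one _)]

lemma Psi0_mul {N : ℕ} (β γ : Braid N) : Psi0 (β * γ) = Psi0 β * Psi0 γ := by
  unfold Psi0
  rw [Psi_mul, Matrix.map_mul]

lemma Psi1_mul {N : ℕ} (β γ : Braid N) :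
    Psi1 (β * γ) = Psi1 β * Psi0 γ + Psi0 β * Psi1 γ := by
  ext a b
  simp only [Psi0, Psi1, Psi_mul, map_apply, mul_apply, map_sum, coeff_one_mul, Matrix.add_apply,
    ← Finset.sum_add_distrib]
  apply Finset.sum_congr rfl
  intro x _
  ring

lemma coeff_tS : coeff 1 (tS : ℂ⟦X⟧) = 2 := by
  have : (tS : ℂ⟦X⟧) = (1 + X) * (1 + X) := by
    simp [tS, qS, pow_two]
  rw [this, coeff_one_mul]
  simp [coeff_one]
  norm_num

lemma Psi_sig {N : ℕ} (k : Fin N) : Psi (sig k) = 1 + PM tS k := burau_sig_val tS k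

lemma Psi0_sig {N : ℕ} (k : Fin N) (a b : Fin (N + 1)) :
    Psi0 (sig k) a b = if a = Equiv.swap k.castSucc k.succ b then 1 else 0 := by
  have h := cs_ne_s k
  unfold Psi0
  rw [map_apply, Psi_sig, Matrix.add_apply]
  unfold PM
  rw [vecMulVec_apply, one_apply, Equiv.swap_apply_def]
  unfold uV vV
  simp only [Pi.add_apply, Pi.sub_apply, Pi.single_apply, map_add, map_mul, map_sub]
  split_ifs <;> simp_all [coeff_zero_tS]

lemma Psi1_sig {N : ℕ} (k : Fin N) (a b : Fin (N + 1)) :
    Psi1 (sig k) a b = if a = k.castSucc then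
      (if b = k.castSucc then -2 else if b = k.succ then 2 else 0) else 0 := by
  have h := cs_ne_s k
  unfold Psi1
  rw [map_apply, Psi_sig, Matrix.add_apply]
  unfold PM
  rw [vecMulVec_apply, one_apply]
  unfold uV vV
  simp only [Pi.add_apply, Pi.sub_apply, Pi.single_apply, map_add]
  split_ifs <;> simp_all [coeff_tS, coeff_one]

lemma Psi0_apply {N : ℕ} (β : Braid N) :
    ∀ a b : Fin (N + 1), Psi0 β a b = if a = perm β b then 1 else 0 := by
  induction β using braid_induction with
  | h1 =>
    intro a b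
    rw [Psi0_one, map_one, one_apply]
    rfl
  | hs k =>
    intro a b
    rw [Psi0_sig, perm_sig]
  | hinv β ih =>
    intro a b
    have h : (Psi0 β⁻¹ * Psi0 β) a (perm β⁻¹ b) = if a = perm β⁻¹ b then 1 else 0 := by
      rw [← Psi0_mul, inv_mul_cancel, Psi0_one, one_apply]
    rw [← h, mul_apply]
    simp only [ih, ← Equiv.Perm.mul_apply, ← map_mul, mul_inv_cancel, map_one,
      Equiv.Perm.one_apply]
    simp
  | hmul β γ ihβ ihγ =>
    intro a b
    rw [Psi0_mul, mul_apply]
    simp only [ihβ, ihγ, map_mul, Equiv.Perm.mul_apply]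
    simp

/-! ### The cocycles -/

/-- The indicator of a label. -/
noncomputable def Ind {m n : ℕ} (i : Fin m) (c : Fin n → Fin m) : Fin n → ℂ :=
  fun a => if c a = i then 1 else 0

lemma Ind_vecMul {m N : ℕ} (i : Fin m) (c : Fin (N + 1) → Fin m) (β : Braid N) :
    Ind i c ᵥ* Psi0 β = Ind i (c ∘ perm β) := by
  funext b
  unfold vecMul dotProduct
  simp only [Psi0_apply]
  simp [Ind]

lemma Psi0_mulVec {m N : ℕ} (i : Fin m) (c : Fin (N + 1) → Fin m) (β : Braid N) :
    Psi0 β *ᵥ Ind i (c ∘ perm β) = Ind i c := by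
  funext a
  unfold mulVec dotProduct
  simp only [Psi0_apply]
  have : ∀ b, (a = perm β b) ↔ (b = (perm β).symm a) := by
    intro b
    rw [Equiv.eq_symm_apply, eq_comm]
  simp only [this, ite_mul, one_mul, zero_mul, Finset.sum_ite_eq', Finset.mem_univ, if_true]
  simp [Ind]

/-- The matrix coefficients of the linear term with respect to labels. -/
noncomputable def oc {m N : ℕ} (i j : Fin m) (β : Braid N) (c : Fin (N + 1) → Fin m) : ℂ :=
  Ind i c ⬝ᵥ (Psi1 β *ᵥ Ind j (c ∘ perm β))

lemma comp_perm_mul {m N : ℕ} (β γ : Braid N) (c : Fin (N + 1) → Fin m) :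
    c ∘ perm (β * γ) = (c ∘ perm β) ∘ perm γ := by
  funext x
  simp

lemma oc_mul {m N : ℕ} (i j : Fin m) (β γ : Braid N) (c : Fin (N + 1) → Fin m) :
    oc i j (β * γ) c = oc i j β c + oc i j γ (c ∘ perm β) := by
  unfold oc
  rw [comp_perm_mul, Psi1_mul, add_mulVec, ← mulVec_mulVec, Psi0_mulVec, dotProduct_add,
    ← mulVec_mulVec, dotProduct_mulVec (Ind i c) (Psi0 β), Ind_vecMul]

lemma cocycle_ext {m N : ℕ} (F G : Braid N → (Fin (N + 1) → Fin m) → ℂ)
    (hF : ∀ β γ c, F (β * γ) c = F β c + F γ (c ∘ perm β))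
    (hG : ∀ β γ c, G (β * γ) c = G β c + G γ (c ∘ perm β))
    (hs : ∀ k c, F (sig k) c = G (sig k) c) (β : Braid N) : ∀ c, F β c = G β c := by
  have one : ∀ (F : Braid N → (Fin (N + 1) → Fin m) → ℂ)
      (_ : ∀ β γ c, F (β * γ) c = F β c + F γ (c ∘ perm β)) (c), F 1 c = 0 := by
    intro F hF c
    have h := hF 1 1 c
    rw [one_mul] at h
    have h2 : c ∘ perm (1 : Braid N) = c := by
      funext x
      simp
    rw [h2] at h
    linear_combination -h
  induction β using braid_induction with
  | h1 =>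
    intro c
    rw [one F hF, one G hG]
  | hs k => exact hs k
  | hinv β ih =>
    intro c
    have h1 := hF β⁻¹ β c
    have h2 := hG β⁻¹ β c
    rw [inv_mul_cancel, one F hF] at h1
    rw [inv_mul_cancel, one G hG, ← ih] at h2
    linear_combination h2 - h1
  | hmul β γ ihβ ihγ =>
    intro c
    rw [hF, hG, ihβ, ihγ]

lemma oc_sig {m N : ℕ} (i j : Fin m) (k : Fin N) (c : Fin (N + 1) → Fin m) :
    oc i j (sig k) c = (if c k.castSucc = i then 1 else 0)
      * (-2 * (if c k.succ = j then 1 else 0) + 2 * (if c k.castSucc = j then 1 else 0)) := by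
  have h := cs_ne_s k
  unfold oc dotProduct mulVec dotProduct
  simp only [Psi1_sig, Ind, Function.comp_apply, perm_sig]
  rw [Finset.sum_eq_single k.castSucc]
  · simp only [↓reduceIte]
    congr 1
    rw [Finset.sum_eq_add k.castSucc k.succ h]
    · simp [h.symm]
    · intro b _ hb
      simp [hb.1, hb.2]
    · intro h; exact absurd (Finset.mem_univ _) h
    · intro h; exact absurd (Finset.mem_univ _) h
  · intro b _ hb
    simp [hb]
  · intro h; exact absurd (Finset.mem_univ _) h

lemma oc_symm {m N : ℕ} (i j : Fin m) (hij : i ≠ j) (β : Braid N) (c : Fin (N + 1) → Fin m) :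
    oc i j β c + oc j i β c = -2 * (crossSum i j β c : ℂ) := by
  apply cocycle_ext (fun β c => oc i j β c + oc j i β c)
    (fun β c => -2 * (crossSum i j β c : ℂ))
  · intro β γ c
    rw [oc_mul, oc_mul]
    ring
  · intro β γ c
    rw [crossSum_mul]
    push_cast
    ring
  · intro k c
    rw [oc_sig, oc_sig, crossSum_sig]
    unfold chi
    split_ifs <;> simp_all

/-- The number of pairs of positions, the first with label `i` and the second with label `j`. -/
noncomputable def pot {m n : ℕ} (i j : Fin m) (c : Fin n → Fin m) : ℂ :=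
  ∑ a, ∑ b, (if a < b then 1 else 0) * (Ind i c a * Ind j c b)

lemma pot_swap {m N : ℕ} (i j : Fin m) (k : Fin N) (c : Fin (N + 1) → Fin m) :
    pot i j (c ∘ Equiv.swap k.castSucc k.succ) = pot i j c
      - Ind i c k.castSucc * Ind j c k.succ + Ind i c k.succ * Ind j c k.castSucc := by
  have h := cs_ne_s k
  set τ := Equiv.swap k.castSucc k.succ with hτ
  have key : ∀ a b : Fin (N + 1), (if τ a < τ b then (1 : ℂ) else 0)
      = (if a < b then 1 else 0) - (if a = k.castSucc ∧ b = k.succ then 1 else 0)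
        + (if a = k.succ ∧ b = k.castSucc then 1 else 0) := by
    intro a b
    have hval : ∀ a : Fin (N + 1), ((τ a : Fin (N + 1)) : ℕ)
        = if (a : ℕ) = k then (k : ℕ) + 1 else if (a : ℕ) = k + 1 then (k : ℕ) else a := by
      intro a
      rw [hτ, Equiv.swap_apply_def]
      simp only [Fin.ext_iff, Fin.val_castSucc, Fin.val_succ]
      split_ifs <;> simp
    simp only [Fin.lt_def, hval, Fin.ext_iff, Fin.val_castSucc, Fin.val_succ]
    split_ifs <;> first | (exfalso; omega) | norm_num
  have e1 : pot i j (c ∘ τ)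
      = ∑ a, ∑ b, (if τ a < τ b then 1 else 0) * (Ind i c a * Ind j c b) := by
    unfold pot
    rw [← Equiv.sum_comp τ]
    apply Finset.sum_congr rfl
    intro a _
    rw [← Equiv.sum_comp τ]
    apply Finset.sum_congr rfl
    intro b _
    simp [Ind, hτ]
  rw [e1]
  have hpt : ∀ x y : Fin (N + 1), (∑ a, ∑ b, (if a = x ∧ b = y then (1 : ℂ) else 0)
      * (Ind i c a * Ind j c b)) = Ind i c x * Ind j c y := by
    intro x y
    rw [Finset.sum_eq_single x]
    · rw [Finset.sum_eq_single y]
      · simp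
      · intro b _ hb
        simp [hb]
      · intro h; exact absurd (Finset.mem_univ _) h
    · intro a _ ha
      simp [ha]
    · intro h; exact absurd (Finset.mem_univ _) h
  simp only [key, add_mul, sub_mul, Finset.sum_add_distrib, Finset.sum_sub_distrib, hpt]
  rfl

lemma oc_antisymm {m N : ℕ} (i j : Fin m) (hij : i ≠ j) (β : Braid N)
    (c : Fin (N + 1) → Fin m) :
    oc i j β c - oc j i β c = 2 * (pot i j (c ∘ perm β) - pot i j c) := by
  apply cocycle_ext (fun β c => oc i j β c - oc j i β c)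
    (fun β c => 2 * (pot i j (c ∘ perm β) - pot i j c))
  · intro β γ c
    rw [oc_mul, oc_mul]
    ring
  · intro β γ c
    rw [comp_perm_mul]
    ring
  · intro k c
    rw [oc_sig, oc_sig, perm_sig, pot_swap]
    unfold Ind
    split_ifs <;> simp_all

lemma Psi1_one_vec {N : ℕ} (β : Braid N) : Psi1 β *ᵥ (fun _ => 1) = 0 := by
  funext a
  have h := congrFun (burau_one tS β) a
  unfold mulVec dotProduct at h ⊢
  simp only [mul_one] at h ⊢
  unfold Psi1 Psi
  simp only [map_apply]
  rw [← map_sum, h]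
  simp [coeff_one]

lemma oc_row {m N : ℕ} (i : Fin m) (β : Braid N) (c : Fin (N + 1) → Fin m) :
    ∑ j, oc i j β c = 0 := by
  unfold oc
  rw [← dotProduct_sum, ← mulVec_sum]
  have : (∑ j : Fin m, Ind j (c ∘ perm β)) = fun _ => 1 := by
    funext a
    rw [Finset.sum_apply]
    simp [Ind]
  rw [this, Psi1_one_vec]
  simp

lemma oc_eq_zero {m N : ℕ} (β : Braid N) (c : Fin (N + 1) → Fin m)
    (hc : ∀ a, c (perm β a) = c a) (hs : ∀ i j : Fin m, i < j → crossSum i j β c = 0)
    (i j : Fin m) : oc i j β c = 0 := by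
  have hcc : c ∘ perm β = c := funext hc
  have h1 : ∀ i j : Fin m, i < j → oc i j β c = 0 ∧ oc j i β c = 0 := by
    intro i j hij
    have h2 := oc_symm i j hij.ne β c
    have h3 := oc_antisymm i j hij.ne β c
    rw [hs i j hij] at h2
    rw [hcc] at h3
    constructor
    · linear_combination (h2 + h3) / 2
    · linear_combination (h2 - h3) / 2
  have h2 : ∀ i j : Fin m, i ≠ j → oc i j β c = 0 := by
    intro i j hij
    rcases lt_or_gt_of_ne hij with h | h
    · exact (h1 i j h).1
    · exact (h1 j i h).2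
  by_cases hij : i = j
  · subst hij
    have h3 := oc_row i β c
    rwa [Finset.sum_eq_single i (fun j _ hj => h2 i j hj.symm)
      (fun h => absurd (Finset.mem_univ _) h)] at h3
  · exact h2 i j hij

/-! ### Solving the linear equation -/

lemma exists_vecMul {m N : ℕ} (β : Braid N) (c : Fin (N + 1) → Fin m) (h : IsLabelling β c)
    (z : Fin (N + 1) → ℂ) (hz : ∀ j, z ⬝ᵥ Ind j c = 0) :
    ∃ y : Fin (N + 1) → ℂ, y ᵥ* (1 - Psi0 β) = z := by
  classical
  choose p hp using h.surjective
  let f := (1 - Psi0 β).mulVecLin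
  let φ : Module.Dual ℂ (Fin (N + 1) → ℂ) :=
    { toFun := fun x => z ⬝ᵥ x
      map_add' := fun x y => dotProduct_add _ _ _
      map_smul' := fun r x => by simp }
  have hφ : φ ∈ f.dualMap.range := by
    rw [LinearMap.range_dualMap_eq_dualAnnihilator_ker, Submodule.mem_dualAnnihilator]
    intro x hx
    have hx1 : ∀ a, x (perm β a) = x a := by
      intro a
      have h1 : (1 - Psi0 β) *ᵥ x = 0 := hx
      have h2 := congrFun h1 (perm β a)
      rw [sub_mulVec, one_mulVec] at h2
      simp only [Pi.sub_apply, Pi.zero_apply, mulVec, dotProduct, Psi0_apply] at h2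
      have h3 : ∀ b, (perm β a = perm β b) ↔ (b = a) := by
        intro b
        rw [EmbeddingLike.apply_eq_iff_eq, eq_comm]
      simp only [h3, ite_mul, one_mul, zero_mul, Finset.sum_ite_eq', Finset.mem_univ,
        if_true] at h2
      exact sub_eq_zero.1 h2
    have hx2 : ∀ (n : ℕ) a, x ((perm β ^ n) a) = x a := by
      intro n
      induction n with
      | zero => intro a; simp
      | succ n ih => intro a; rw [pow_succ, Equiv.Perm.mul_apply, ih, hx1]
    have hx3 : ∀ a b, c a = c b → x a = x b := by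
      intro a b hab
      obtain ⟨n, hn⟩ := (h.connected a b hab).exists_nat_pow_eq
      rw [← hn, hx2]
    have hx4 : x = ∑ j, x (p j) • Ind j c := by
      funext a
      rw [Finset.sum_apply]
      simp only [Pi.smul_apply, Ind, smul_eq_mul, mul_ite, mul_one, mul_zero]
      rw [Finset.sum_ite_eq]
      simp only [Finset.mem_univ, if_true]
      exact hx3 _ _ (hp _).symm
    show z ⬝ᵥ x = 0
    rw [hx4, dotProduct_sum]
    apply Finset.sum_eq_zero
    intro j _
    rw [dotProduct_smul, hz, smul_zero]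
  obtain ⟨ψ, hψ⟩ := hφ
  refine ⟨fun a => ψ (Pi.single a 1), ?_⟩
  funext b
  have h1 : φ (Pi.single b 1) = z b := by
    show z ⬝ᵥ Pi.single b 1 = z b
    simp
  rw [← h1, ← hψ]
  show _ = ψ ((1 - Psi0 β) *ᵥ Pi.single b 1)
  have h2 : (1 - Psi0 β) *ᵥ Pi.single b 1
      = ∑ a, (1 - Psi0 β) a b • (Pi.single a 1 : Fin (N + 1) → ℂ) := by
    funext a
    rw [Finset.sum_apply]
    simp [Pi.single_apply]
  rw [h2, map_sum]
  unfold vecMul dotProduct
  apply Finset.sum_congr rfl
  intro a _
  rw [map_smul, smul_eq_mul, mul_comm]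

/-! ### Divisibility of the determinant -/

lemma det_dvd {n : ℕ} (U A : Matrix (Fin n) (Fin n) ℂ⟦X⟧) (S : Finset (Fin n))
    (hU : IsUnit (det U)) (h : ∀ a ∈ S, ∀ b, X ^ 2 ∣ (U * A) a b) :
    X ^ (2 * S.card) ∣ det A := by
  classical
  have h1 : ∀ a b, ∃ x, (U * A) a b = (if a ∈ S then X ^ 2 else 1) * x := by
    intro a b
    split_ifs with ha
    · exact h a ha b
    · exact ⟨(U * A) a b, (one_mul _).symm⟩
  choose x hx using h1
  have h2 : U * A = diagonal (fun a => if a ∈ S then X ^ 2 else 1) * Matrix.of x := by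
    ext1 a b
    rw [hx, diagonal_mul]
    rfl
  have h3 : det U * det A = X ^ (2 * S.card) * det (Matrix.of x) := by
    rw [← det_mul, h2, det_mul, det_diagonal]
    congr 1
    rw [Finset.prod_ite_mem]
    simp [pow_mul]
  exact (hU.dvd_mul_left).1 ⟨_, h3⟩

lemma kap_dvd {M N : ℕ} (β : Braid N) (c : Fin (N + 1) → Fin (M + 1)) (h : IsLabelling β c)
    (hs : ∀ i j : Fin (M + 1), i < j → crossSum i j β c = 0) :
    (X : ℂ⟦X⟧) ^ (2 * M) ∣ kap tS β := by
  classical
  have hcc : c ∘ perm β = c := funext h.closed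
  have hoc := oc_eq_zero β c h.closed hs
  have hy : ∀ i, ∃ y : Fin (N + 1) → ℂ, y ᵥ* (1 - Psi0 β) = Ind i c ᵥ* Psi1 β := by
    intro i
    apply exists_vecMul β c h
    intro j
    have := hoc i j
    unfold oc at this
    rwa [hcc, dotProduct_mulVec] at this
  choose y hy using hy
  choose p hp using h.surjective
  set r : Fin (M + 1) → Fin (N + 1) → ℂ⟦X⟧ := fun i a => C (Ind i c a) + X * C (y i a) with hr
  have hr0 : ∀ i a, constantCoeff (r i a) = Ind i c a := by
    intro i a
    simp [hr]
  have hr1 : ∀ i a, coeff 1 (r i a) = y i a := by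
    intro i a
    simp [hr, coeff_C]
  have hA0 : ∀ a b, constantCoeff ((1 - Psi β) a b) = (1 - Psi0 β) a b := by
    intro a b
    rw [Matrix.sub_apply, Matrix.sub_apply, map_sub, one_apply, one_apply]
    unfold Psi0
    rw [map_apply]
    split_ifs <;> simp
  have hA1 : ∀ a b, coeff 1 ((1 - Psi β) a b) = -Psi1 β a b := by
    intro a b
    rw [Matrix.sub_apply, map_sub, one_apply]
    unfold Psi1
    rw [map_apply]
    split_ifs <;> simp [coeff_one]
  have hrK : ∀ i b, X ^ 2 ∣ (r i ᵥ* (1 - Psi β)) b := by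
    intro i b
    rw [X_pow_dvd_iff]
    intro m hm
    unfold vecMul dotProduct
    rw [map_sum]
    interval_cases m
    · have h1 : (Ind i c ᵥ* (1 - Psi0 β)) b = 0 := by
        rw [vecMul_sub, vecMul_one, Ind_vecMul, hcc, sub_self]
        rfl
      rw [← h1]
      unfold vecMul dotProduct
      apply Finset.sum_congr rfl
      intro a _
      rw [coeff_zero_eq_constantCoeff_apply, map_mul, hr0, hA0]
    · have h1 : (y i ᵥ* (1 - Psi0 β)) b - (Ind i c ᵥ* Psi1 β) b = 0 := by
        rw [hy, sub_self]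
      rw [← h1]
      unfold vecMul dotProduct
      rw [← Finset.sum_sub_distrib]
      apply Finset.sum_congr rfl
      intro a _
      rw [coeff_one_mul, hr0, hr1, hA0, hA1]
      ring
  set s : Fin (M + 1) → ℂ⟦X⟧ := fun i => ∑ a, r i a with hsdef
  have hs0 : constantCoeff (s 0) ≠ 0 := by
    rw [hsdef]
    simp only [map_sum, hr0, Ind]
    rw [Finset.sum_boole]
    have : 0 < (Finset.univ.filter (fun a => c a = 0)).card :=
      Finset.card_pos.2 ⟨p 0, by simp [hp]⟩
    exact_mod_cast this.ne'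
  set T : Matrix (Fin (N + 1)) (Fin (N + 1)) ℂ⟦X⟧ :=
    1 - Psi β + vecMulVec (fun _ => 1) (wV tS N) with hT
  have hrT : ∀ i b, (r i ᵥ* T) b = (r i ᵥ* (1 - Psi β)) b + s i * wV tS N b := by
    intro i b
    rw [hT, vecMul_add, Pi.add_apply, vecMul_vecMulVec]
    congr 1
    simp [hsdef, dotProduct]
  set U : Matrix (Fin (N + 1)) (Fin (N + 1)) ℂ⟦X⟧ :=
    Matrix.of fun a => if p (c a) = a ∧ c a ≠ 0 then s 0 • r (c a) - s (c a) • r 0
      else Pi.single a 1 with hUdef
  set S : Finset (Fin (N + 1)) := Finset.univ.filter (fun a => p (c a) = a ∧ c a ≠ 0) with hS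
  have hcard : S.card = M := by
    have h1 : S = Finset.image (fun i : Fin M => p i.succ) Finset.univ := by
      ext a
      simp only [hS, Finset.mem_filter, Finset.mem_univ, true_and, Finset.mem_image]
      constructor
      · rintro ⟨h1, h2⟩
        obtain ⟨i, hi⟩ := Fin.exists_succ_eq.2 h2
        exact ⟨i, by rw [hi, h1]⟩
      · rintro ⟨i, rfl⟩
        rw [hp]
        exact ⟨rfl, Fin.succ_ne_zero i⟩
    rw [h1, Finset.card_image_of_injective, Finset.card_univ, Fintype.card_fin]
    intro i j hij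
    have := congrArg c hij
    simp only [hp] at this
    exact Fin.succ_injective _ this
  have hUT : ∀ a ∈ S, ∀ b, X ^ 2 ∣ (U * T) a b := by
    intro a ha b
    rw [hS, Finset.mem_filter] at ha
    have h1 : (U * T) a b = s 0 * (r (c a) ᵥ* (1 - Psi β)) b
        - s (c a) * (r 0 ᵥ* (1 - Psi β)) b := by
      rw [mul_apply_eq_vecMul]
      have h2 : U a = s 0 • r (c a) - s (c a) • r 0 := by
        change (if p (c a) = a ∧ c a ≠ 0 then s 0 • r (c a) - s (c a) • r 0
          else Pi.single a 1) = _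
        rw [if_pos ha.2]
      rw [h2, sub_vecMul, smul_vecMul, smul_vecMul]
      simp only [Pi.sub_apply, Pi.smul_apply, smul_eq_mul, hrT]
      ring
    rw [h1]
    exact dvd_sub (Dvd.dvd.mul_left (hrK _ _) _) (Dvd.dvd.mul_left (hrK _ _) _)
  have hU : IsUnit (det U) := by
    rw [PowerSeries.isUnit_iff_constantCoeff, isUnit_iff_ne_zero, RingHom.map_det]
    intro hdet
    obtain ⟨x, hx, hx0⟩ := exists_mulVec_eq_zero_iff.2 hdet
    have hns : ∀ a, ¬ (p (c a) = a ∧ c a ≠ 0) → x a = 0 := by
      intro a ha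
      have h1 := congrFun hx0 a
      simp only [mulVec, dotProduct, RingHom.mapMatrix_apply, map_apply, Pi.zero_apply] at h1
      have h2 : ∀ b, constantCoeff (U a b) = if b = a then 1 else 0 := by
        intro b
        rw [hUdef]
        simp only [of_apply]
        rw [if_neg ha, Pi.single_apply]
        split_ifs <;> simp
      simp only [h2, ite_mul, one_mul, zero_mul, Finset.sum_ite_eq', Finset.mem_univ,
        if_true] at h1
      exact h1
    apply hx
    funext a
    by_cases ha : p (c a) = a ∧ c a ≠ 0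
    · have h1 := congrFun hx0 a
      simp only [mulVec, dotProduct, RingHom.mapMatrix_apply, map_apply, Pi.zero_apply] at h1
      rw [Finset.sum_eq_single a] at h1
      · have h2 : constantCoeff (U a a) = constantCoeff (s 0) := by
          rw [hUdef]
          simp only [of_apply]
          rw [if_pos ha]
          simp only [Pi.sub_apply, Pi.smul_apply, smul_eq_mul, map_sub, map_mul, hr0, Ind]
          simp [ha.2]
        rw [h2] at h1
        exact (mul_eq_zero.1 h1).resolve_left hs0
      · intro b _ hb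
        by_cases hb' : p (c b) = b ∧ c b ≠ 0
        · have h2 : constantCoeff (U a b) = 0 := by
            rw [hUdef]
            simp only [of_apply]
            rw [if_pos ha]
            have h3 : c b ≠ c a := by
              intro h3
              apply hb
              rw [← hb'.1, h3, ha.1]
            simp only [Pi.sub_apply, Pi.smul_apply, smul_eq_mul, map_sub, map_mul, hr0, Ind]
            simp [hb'.2, h3]
          rw [h2, zero_mul]
        · rw [hns b hb', mul_zero]
      · intro h; exact absurd (Finset.mem_univ _) h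
    · exact hns a ha
  have := det_dvd U T S hU hUT
  rwa [hcard] at this

lemma conway_dvd {M N : ℕ} (β : Braid N) (c : Fin (N + 1) → Fin (M + 1)) (h : IsLabelling β c)
    (hs : ∀ i j : Fin (M + 1), i < j → crossSum i j β c = 0) :
    (X : ℂ⟦X⟧) ^ (2 * M) ∣ conway β := by
  have h1 := kap_dvd β c h hs
  rw [kap_eq] at h1
  have h2 := (((isUnit_sum N).pow 2).dvd_mul_left).1 h1
  unfold conway
  exact Dvd.dvd.mul_left h2 _

lemma cw_algSplit (M d : ℕ) (hd : d < 2 * M) (L : Link (M + 1)) (hL : IsAlgSplit L) :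
    cw (M + 1) d L = 0 := by
  induction L using Quot.ind with
  | mk L =>
    obtain ⟨N, β, c, h⟩ := L
    rw [cw_mk]
    apply coeff_eq_zero_of_dvd hd
    apply conway_dvd β c h
    intro i j hij
    have h1 := hL i j hij
    have h2 : (crossSum i j β c : ℂ) / 2 = 0 := h1
    have h3 : (crossSum i j β c : ℂ) = 0 := by linear_combination 2 * h2
    exact_mod_cast h3

end Pool.Agent.H.MP_ca6624_gt
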