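import Pool.Agent.H.MP_ca6624_gt.NonMem

set_option autoImplicit false

open Matrix PowerSeries

namespace Pool.Agent.H.MP_ca6624_gt

/-! ### The value on the test element -/

/-- The element `x` acts, up to the factor `z`, as the braid `x'`. -/
def Sm (x : AA) (x' : Braid 3) : Prop :=
  ∀ u w : AA, lin conway (u * x * w) = zS * lin conway (u * ee x' * w)

lemma sm_gen (τ ρ : Braid 3) (k : Fin 3) :
    Sm (ee (τ * sig k * ρ) - ee (τ * (sig k)⁻¹ * ρ)) (τ * ρ) := by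
  intro u w
  induction u using AA_induction with
  | h1 g =>
    induction w using AA_induction with
    | h1 h =>
      have h1 := conway_skein (g * τ) (ρ * h) k
      rw [mul_sub, sub_mul, map_sub, ← map_mul, ← map_mul, ← map_mul, ← map_mul, ← map_mul,
        ← map_mul, lin_ee, lin_ee, lin_ee]
      simp only [← mul_assoc] at h1 ⊢
      exact h1
    | h2 x y hx hy => rw [mul_add, mul_add, map_add, map_add, hx, hy, mul_add]
    | h3 r x hx => rw [mul_smul_comm, mul_smul_comm, map_smul, map_smul, hx, mul_smul_comm]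
  | h2 x y hx hy => rw [add_mul, add_mul, add_mul, add_mul, map_add, map_add, hx, hy, mul_add]
  | h3 r x hx =>
    rw [smul_mul_assoc, smul_mul_assoc, smul_mul_assoc, smul_mul_assoc, map_smul, map_smul, hx,
      mul_smul_comm]

lemma sm_bA : Sm (ee bA - 1) (sig 2 * sig 1 * sig 0 * (sig 1)⁻¹ * (sig 2)⁻¹) := by
  have h := sm_gen (sig 2 * sig 1) (sig 0 * (sig 1)⁻¹ * (sig 2)⁻¹) 0
  have e1 : sig 2 * sig 1 * sig 0 * (sig 0 * (sig 1)⁻¹ * (sig 2)⁻¹) = bA := by
    unfold bA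
    group
  have e2 : sig 2 * sig 1 * (sig 0)⁻¹ * (sig 0 * (sig 1)⁻¹ * (sig 2)⁻¹) = (1 : Braid 3) := by
    group
  rw [e1, e2, map_one] at h
  convert h using 1
  group

lemma sm_bB : Sm (ee bB - 1) (sig 2 * sig 1 * (sig 2)⁻¹) := by
  have h := sm_gen (sig 2) (sig 1 * (sig 2)⁻¹) 1
  have e1 : sig 2 * sig 1 * (sig 1 * (sig 2)⁻¹) = bB := by
    unfold bB
    group
  have e2 : sig 2 * (sig 1)⁻¹ * (sig 1 * (sig 2)⁻¹) = (1 : Braid 3) := by
    group
  rwa [e1, e2, map_one, ← mul_assoc] at h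

lemma sm_sq (k : Fin 3) : Sm (ee (sig k * sig k) - 1) (sig k) := by
  have h := sm_gen 1 (sig k) k
  have e2 : 1 * (sig k)⁻¹ * sig k = (1 : Braid 3) := by
    group
  rwa [e2, map_one, one_mul] at h

lemma five (x0 x1 x2 x3 x4 : AA) (y0 y1 y2 y3 y4 p h : Braid 3) (h0 : Sm x0 y0) (h1 : Sm x1 y1)
    (h2 : Sm x2 y2) (h3 : Sm x3 y3) (h4 : Sm x4 y4) :
    lin conway (x0 * ee p * x1 * x2 * x3 * x4 * ee h)
      = zS ^ 5 * conway (y0 * p * y1 * y2 * y3 * y4 * h) := by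
  have s4 := h4 (x0 * ee p * x1 * x2 * x3) (ee h)
  have s3 := h3 (x0 * ee p * x1 * x2) (ee y4 * ee h)
  have s2 := h2 (x0 * ee p * x1) (ee y3 * ee y4 * ee h)
  have s1 := h1 (x0 * ee p) (ee y2 * ee y3 * ee y4 * ee h)
  have s0 := h0 1 (ee p * ee y1 * ee y2 * ee y3 * ee y4 * ee h)
  simp only [← mul_assoc, one_mul] at s0 s1 s2 s3 s4
  rw [s4, s3, s2, s1, s0]
  simp only [← map_mul]
  rw [lin_ee]
  ring

lemma xx_eq : xx 1 1 =
    (ee bA - 1) * ee bC⁻¹ * (ee bC - 1) * (ee bB - 1) * (ee bD - 1) * (ee bE - 1)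
        * ee (bD⁻¹ * bE⁻¹)
      - (ee bA - 1) * ee bC⁻¹ * (ee bC - 1) * (ee bB - 1) * (ee bE - 1) * (ee bD - 1)
        * ee (bD⁻¹ * bE⁻¹)
      - (ee bA - 1) * ee bC⁻¹ * (ee bB - 1) * (ee bC - 1) * (ee bD - 1) * (ee bE - 1)
        * ee (bD⁻¹ * bE⁻¹)
      + (ee bA - 1) * ee bC⁻¹ * (ee bB - 1) * (ee bC - 1) * (ee bE - 1) * (ee bD - 1)
        * ee (bD⁻¹ * bE⁻¹) := by
  have e : yy 1 = ee bC⁻¹ * ((ee bC - 1) * (ee bB - 1) - (ee bB - 1) * (ee bC - 1)) := by
    unfold yy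
    rw [pow_one]
    have h := ee_inv_mul bC
    have h2 : ee bC⁻¹ * (ee bC * ee bB) = ee bB := by
      rw [← mul_assoc, h, one_mul]
    simp only [sub_mul, mul_sub, one_mul, mul_one]
    simp only [mul_assoc]
    rw [h2, h]
    abel
  unfold xx
  rw [pow_one, e, bG_eq]
  generalize ee bA - 1 = a
  generalize ee bB - 1 = b
  generalize ee bC - 1 = c
  generalize ee bD - 1 = d
  generalize ee bE - 1 = e
  generalize ee bC⁻¹ = f
  generalize ee (bD⁻¹ * bE⁻¹) = g
  simp only [mul_sub, sub_mul]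
  simp only [mul_assoc]
  abel

lemma zS_eq : ∃ u : ℂ⟦X⟧, zS = X * u ∧ constantCoeff u = 2 := by
  refine ⟨(2 + X) * ((qS⁻¹ : ℂ⟦X⟧ˣ) : ℂ⟦X⟧), ?_, ?_⟩
  · have h1 : (qS : ℂ⟦X⟧) = 1 + X := rfl
    have h2 : (1 + X) * ((qS⁻¹ : ℂ⟦X⟧ˣ) : ℂ⟦X⟧) = 1 := qS.mul_inv
    unfold zS
    rw [h1]
    linear_combination (-(1 + X) : ℂ⟦X⟧) * h2
  · have h2 : (1 + X) * ((qS⁻¹ : ℂ⟦X⟧ˣ) : ℂ⟦X⟧) = 1 := qS.mul_inv
    have h3 := congrArg constantCoeff h2
    simp only [map_mul, map_add, map_one, constantCoeff_X, add_zero, one_mul] at h3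
    rw [map_mul, h3, map_add, constantCoeff_X, add_zero, mul_one]
    exact map_ofNat _ 2

lemma coeff_zS_pow (y : ℂ⟦X⟧) : coeff 5 (zS ^ 5 * y) = 32 * constantCoeff y := by
  obtain ⟨u, hu, hu2⟩ := zS_eq
  have h := coeff_X_pow_mul (u ^ 5 * y) 5 0
  rw [zero_add] at h
  rw [hu, mul_pow, mul_assoc, h, coeff_zero_eq_constantCoeff_apply, map_mul, map_pow, hu2]
  norm_num

/-- The constant term of the Conway function of a closed braid on four strands, in terms of the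
permutation of the braid. -/
def kp (π : Equiv.Perm (Fin 4)) : ℤ :=
  -(Equiv.Perm.sign π : ℤ) * det (Matrix.of fun i j : Fin 3 =>
    (if i = j then 1 else 0) - (if i.succ = π j.succ then 1 else 0 : ℤ))

lemma chiB_const {N : ℕ} (β : Braid N) :
    constantCoeff (chiB β : ℂ⟦X⟧) = ((Equiv.Perm.sign (perm β) : ℤ) : ℂ) := by
  have h : (Units.map (constantCoeff (R := ℂ)).toMonoidHom).comp (chiB (N := N))
      = ((Units.map (Int.castRingHom ℂ).toMonoidHom).comp Equiv.Perm.sign).comp perm := by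
    apply PresentedGroup.ext
    intro k
    apply Units.ext
    show constantCoeff (chiB (sig k) : ℂ⟦X⟧) = ((Equiv.Perm.sign (perm (sig k)) : ℤ) : ℂ)
    rw [chiB_sig, perm_sig, Equiv.Perm.sign_swap (cs_ne_s k)]
    have h2 : (1 + X) * ((qS⁻¹ : ℂ⟦X⟧ˣ) : ℂ⟦X⟧) = 1 := qS.mul_inv
    have h3 := congrArg constantCoeff h2
    simp only [map_mul, map_add, map_one, constantCoeff_X, add_zero, one_mul] at h3
    rw [Units.val_neg, map_neg, h3]
    simp
  have h2 := congrArg (fun f => (f β).val) h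
  exact h2

lemma conway_const (β : Braid 3) : constantCoeff (conway β) = (kp (perm β) : ℂ) := by
  unfold conway kp
  rw [map_mul, Units.val_mul, map_mul, chiB_const]
  have h1 : constantCoeff (((-qS) ^ 3 : ℂ⟦X⟧ˣ) : ℂ⟦X⟧) = -1 := by
    rw [Units.val_pow_eq_pow_val, Units.val_neg, map_pow, map_neg]
    have : constantCoeff (qS : ℂ⟦X⟧) = 1 := by simp [qS]
    rw [this]
    norm_num
  have h2 : constantCoeff (mnr tS β) = ((det (Matrix.of fun i j : Fin 3 =>
      (if i = j then 1 else 0) - (if i.succ = perm β j.succ then 1 else 0 : ℤ)) : ℤ) : ℂ) := by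
    unfold mnr
    refine Eq.trans ?_ (RingHom.map_det (Int.castRingHom ℂ) _).symm
    rw [RingHom.map_det]
    congr 1
    ext i j
    have h3 := Psi0_apply β i.succ j.succ
    unfold Psi0 Psi at h3
    rw [map_apply] at h3
    simp only [RingHom.mapMatrix_apply, map_apply, submatrix_apply, Matrix.sub_apply, of_apply,
      map_sub, h3, one_apply, Fin.succ_inj]
    split_ifs <;> simp
  rw [h1, h2]
  push_cast
  ring

lemma lin_conway_xx : coeff 5 (lin conway (xx 1 1)) = 64 := by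
  rw [xx_eq, map_add, map_sub, map_sub]
  have hC : Sm (ee bC - 1) (sig 2) := sm_sq 2
  have hD : Sm (ee bD - 1) (sig 0) := sm_sq 0
  have hE : Sm (ee bE - 1) (sig 1) := sm_sq 1
  rw [five _ _ _ _ _ _ _ _ _ _ _ _ sm_bA hC sm_bB hD hE,
    five _ _ _ _ _ _ _ _ _ _ _ _ sm_bA hC sm_bB hE hD,
    five _ _ _ _ _ _ _ _ _ _ _ _ sm_bA sm_bB hC hD hE,
    five _ _ _ _ _ _ _ _ _ _ _ _ sm_bA sm_bB hC hE hD]
  rw [← mul_sub, ← mul_sub, ← mul_add, coeff_zS_pow, map_add, map_sub, map_sub,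
    conway_const, conway_const, conway_const, conway_const]
  have k1 : kp (perm (sig 2 * sig 1 * sig 0 * (sig 1)⁻¹ * (sig 2)⁻¹ * bC⁻¹ * sig 2
      * (sig 2 * sig 1 * (sig 2)⁻¹) * sig 0 * sig 1 * (bD⁻¹ * bE⁻¹))) = 1 := by
    simp only [map_mul, map_inv, perm_bC, perm_bD, perm_bE, perm_sig, inv_one, mul_one,
      Equiv.swap_inv]
    unfold kp
    rw [det_fin_three]
    simp only [Equiv.Perm.sign_mul, of_apply]
    decide
  have k2 : kp (perm (sig 2 * sig 1 * sig 0 * (sig 1)⁻¹ * (sig 2)⁻¹ * bC⁻¹ * sig 2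
      * (sig 2 * sig 1 * (sig 2)⁻¹) * sig 1 * sig 0 * (bD⁻¹ * bE⁻¹))) = 0 := by
    simp only [map_mul, map_inv, perm_bC, perm_bD, perm_bE, perm_sig, inv_one, mul_one,
      Equiv.swap_inv]
    unfold kp
    rw [det_fin_three]
    simp only [Equiv.Perm.sign_mul, of_apply]
    decide
  have k3 : kp (perm (sig 2 * sig 1 * sig 0 * (sig 1)⁻¹ * (sig 2)⁻¹ * bC⁻¹
      * (sig 2 * sig 1 * (sig 2)⁻¹) * sig 2 * sig 0 * sig 1 * (bD⁻¹ * bE⁻¹))) = 0 := by
    simp only [map_mul, map_inv, perm_bC, perm_bD, perm_bE, perm_sig, inv_one, mul_one,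
      Equiv.swap_inv]
    unfold kp
    rw [det_fin_three]
    simp only [Equiv.Perm.sign_mul, of_apply]
    decide
  have k4 : kp (perm (sig 2 * sig 1 * sig 0 * (sig 1)⁻¹ * (sig 2)⁻¹ * bC⁻¹
      * (sig 2 * sig 1 * (sig 2)⁻¹) * sig 2 * sig 1 * sig 0 * (bD⁻¹ * bE⁻¹))) = 1 := by
    simp only [map_mul, map_inv, perm_bC, perm_bD, perm_bE, perm_sig, inv_one, mul_one,
      Equiv.swap_inv]
    unfold kp
    rw [det_fin_three]
    simp only [Equiv.Perm.sign_mul, of_apply]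
    decide
  rw [k1, k2, k3, k4]
  norm_num

lemma xx_expand : xx 1 1 = ee (bA * bB * bG) - ee (bA * bB) - ee (bA * bC⁻¹ * bB * bC * bG)
    + ee (bA * bC⁻¹ * bB * bC) - ee (bB * bG) + ee bB + ee (bC⁻¹ * bB * bC * bG)
    - ee (bC⁻¹ * bB * bC) := by
  unfold xx yy
  simp only [map_mul, pow_one]
  have h := ee_inv_mul bC
  have e : ee bB - 1 - ee bC⁻¹ * (ee bB - 1) * ee bC = ee bB - ee bC⁻¹ * ee bB * ee bC := by
    rw [mul_sub, sub_mul, mul_one, h]
    abel
  rw [e]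
  generalize ee bA = a
  generalize ee bB = b
  generalize ee bC = c
  generalize ee bC⁻¹ = f
  generalize ee bG = g
  simp only [mul_sub, sub_mul, one_mul, mul_one]
  simp only [mul_assoc]
  abel

lemma isLabelling_pure (β : Braid 3) (h : perm β = 1) : IsLabelling β (id : Fin 4 → Fin 4) :=
  isLabelling_congr (by rw [map_one, h]) isLabelling_one

lemma onClosure_cw (β : Braid 3) (h : perm β = 1) :
    onClosure (cw 4 5) id β = coeff 5 (conway β) := by
  rw [onClosure_of _ _ _ (isLabelling_pure β h), cw_mk]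

lemma lin_cw_xx : lin (onClosure (cw 4 5) id) (xx 1 1) = 64 := by
  rw [← lin_conway_xx, xx_expand]
  simp only [map_add, map_sub, lin_ee]
  rw [onClosure_cw, onClosure_cw, onClosure_cw, onClosure_cw, onClosure_cw, onClosure_cw,
    onClosure_cw, onClosure_cw]
  all_goals
    simp only [map_mul, map_inv, perm_bA, perm_bB, perm_bC, perm_bG, mul_one, inv_one]

/-! ### Linking numbers -/

lemma crossSum_pure_mul {i j : Fin 4} {β γ : Braid 3} (h : perm β = 1) :
    crossSum i j (β * γ) id = crossSum i j β id + crossSum i j γ (id : Fin 4 → Fin 4) := by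
  rw [crossSum_mul, h]
  rfl

lemma crossSum_pure_inv {i j : Fin 4} {β : Braid 3} (h : perm β = 1) :
    crossSum i j β⁻¹ id = -crossSum i j β (id : Fin 4 → Fin 4) := by
  rw [crossSum_inv, map_inv, h, inv_one]
  rfl

lemma crossSum_pure_pow {i j : Fin 4} {β : Braid 3} (h : perm β = 1) (n : ℕ) :
    crossSum i j (β ^ n) id = n * crossSum i j β (id : Fin 4 → Fin 4) := by
  induction n with
  | zero => rw [pow_zero, crossSum_one]; simp
  | succ n ih =>
    rw [pow_succ, crossSum_pure_mul (by rw [map_pow, h, one_pow]), ih]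
    push_cast
    ring

lemma crossSum_bG (i j : Fin 4) : crossSum i j bG (id : Fin 4 → Fin 4) = 0 := by
  unfold bG
  rw [crossSum_pure_mul (by simp [perm_bD, perm_bE]), crossSum_pure_mul (by simp [perm_bD, perm_bE]),
    crossSum_pure_mul perm_bD, crossSum_pure_inv perm_bD, crossSum_pure_inv perm_bE]
  ring

lemma crossSum_bA : ∀ i j : Fin 4, i < j → crossSum i j bA (id : Fin 4 → Fin 4)
    = if i = 0 ∧ j = 3 then 2 else 0 := by
  unfold bA
  simp only [crossSum_mul, crossSum_inv, crossSum_sig, map_mul, map_inv, perm_sig]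
  decide

lemma crossSum_bB : ∀ i j : Fin 4, i < j → crossSum i j bB (id : Fin 4 → Fin 4)
    = if i = 1 ∧ j = 3 then 2 else 0 := by
  unfold bB
  simp only [crossSum_mul, crossSum_inv, crossSum_sig, map_mul, map_inv, perm_sig]
  decide

end Pool.Agent.H.MP_ca6624_gt
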